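import Pool.Agent.Helper38.Scroll.Statement

/-!
# Line bundles on projective bundles over curves: definitions

`C` is the smooth projective curve with function field `K`, a finite extension of `k(x)`, and `E`
a vector bundle of rank `n` on `C`, given by frames `g` (see
`Pool/Agent/Helper38/Scroll/Statement.lean`). The line bundles on the projective bundle
`π : ℙ(E) → C` of one-dimensional quotients are the `O(m) ⊗ π^* B`, `B` a line bundle on `C`,
given by local generators `β a ∈ K^×`, one for the points over each `a ∈ ℙ¹`.
-/

namespace Pool.Agent.FJ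

open Pool.Agent.Helper38.Scroll MvPolynomial

variable {k K : Type} [Field k] [Field K] [Algebra (RatFunc k) K]

/-- A line bundle on the curve, given by local generators, almost all of them units. -/
def IsLineBundle (β : Option k → K) : Prop :=
  (∀ a, β a ≠ 0) ∧ {a | ¬ (Curve.Regular a (β a) ∧ Curve.Regular a (β a)⁻¹)}.Finite

/-- The degree of the line bundle. -/
noncomputable def lineDegree (β : Option k → K) : ℤ := -∑ᶠ a, Curve.ordOver a (β a)

/-- Positivity of the line bundle `A = O(m) ⊗ π^* B` on `ℙ(E)`: it has positive degree `m` on the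
lines in the fibres, and `m deg Q + s deg B > 0` for all quotient bundles `Q` of `E` of rank
`s > 0`. This holds if `A` is ample (if `m ≥ 1`, then `m ^ (s - 1) (m deg Q + s deg B)` is the
top self-intersection number of the restriction of `A` to `ℙ(Q)`), and conversely. -/
def IsPositive {n : ℕ} (g : Option k → Matrix (Fin n) (Fin n) K) (m : ℕ) (β : Option k → K) :
    Prop :=
  0 < m ∧ ∀ s : ℕ, 0 < s → ∀ A : Matrix (Fin s) (Fin n) K, A.rank = s →
    ∀ h : Option k → Matrix (Fin s) (Fin s) K, Curve.IsQuotientBundle g A h →
      0 < m * Curve.degree h + s * lineDegree β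

variable [Algebra k K] [IsScalarTower k (RatFunc k) K]

/-- A global section of `Sym^d E ⊗ M`, where `E` has frames `g` and the line bundle `M` has local
generators `τ`: over each `a` it is `τ a ⊗ (loc a) (g_1, ..., g_n)` with a form `loc a` of degree
`d` in the columns `g_1, ..., g_n` of the frame `g a`, whose coefficients are functions regular
over `a`. (The vector `v` of `K^n` is identified with the linear form `∑ v_i X_i`.) -/
structure GlobalSection {n : ℕ} (g : Option k → Matrix (Fin n) (Fin n) K) (d : ℕ)
    (τ : Option k → K) where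
  /-- the rational section -/
  form : MvPolynomial (Fin n) K
  /-- its coordinates in the local frames -/
  loc : ∀ a : Option k, MvPolynomial (Fin n) (Curve.regularRing k K a)
  homogeneous : ∀ a, (loc a).IsHomogeneous d
  eq : ∀ a, form = C (τ a) * aeval (fun j => ∑ i, C (g a i j) * X i)
    (map (algebraMap (Curve.regularRing k K a) K) (loc a))

/-- The value of a section at the `R`-valued point of `ℙ(E)` given by an `R`-valued point `θ` of the
curve and the quotient `R^n → R` of the fibre of `E` with coordinates `ℓ`, in the given local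
frames. -/
noncomputable def GlobalSection.value {n : ℕ} {g : Option k → Matrix (Fin n) (Fin n) K} {d : ℕ}
    {τ : Option k → K} (s : GlobalSection g d τ) {R : Type} [CommRing R] [Algebra k R]
    {a : Option k} (θ : Curve.PointOver k K a R) (ℓ : Fin n → R) : R :=
  eval₂ (θ : Curve.regularRing k K a →+* R) ℓ (s.loc a)

/-- The sections of `O(d) ⊗ π^* M` have no common zero on `ℙ(E)`; a closed point of `ℙ(E)` is a
closed point `p` of the curve and a one-dimensional quotient of the fibre of `E`. -/
def NoCommonZero {n : ℕ} (g : Option k → Matrix (Fin n) (Fin n) K) (d : ℕ) (τ : Option k → K) :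
    Prop :=
  ∀ (p : Curve.ClosedPoint k K) (x : Projectivization k (Fin n → k)),
    ∃ s : GlobalSection g d τ, s.value p.2 x.rep ≠ 0

/-- The sections of `O(d) ⊗ π^* M` separate the closed points of `ℙ(E)`. -/
def SeparatesPoints {n : ℕ} (g : Option k → Matrix (Fin n) (Fin n) K) (d : ℕ)
    (τ : Option k → K) : Prop :=
  ∀ (p p' : Curve.ClosedPoint k K) (x x' : Projectivization k (Fin n → k)),
    (p, x) ≠ (p', x') → ∃ s : GlobalSection g d τ, s.value p.2 x.rep = 0 ∧ s.value p'.2 x'.rep ≠ 0

/-- The sections of `O(d) ⊗ π^* M` separate the tangent vectors of `ℙ(E)`: for every nonzero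
tangent vector, i.e. nonconstant `k[ε]`-valued point, some section vanishes at the point but not
along the tangent vector. -/
def SeparatesTangents {n : ℕ} (g : Option k → Matrix (Fin n) (Fin n) K) (d : ℕ)
    (τ : Option k → K) : Prop :=
  ∀ (a : Option k) (θ : Curve.PointOver k K a (DualNumber k)) (ℓ : Fin n → DualNumber k),
    (∃ i, (ℓ i).fst ≠ 0) → ¬ Curve.IsZeroTangent θ ℓ →
      ∃ s : GlobalSection g d τ, (s.value θ ℓ).fst = 0 ∧ (s.value θ ℓ).snd ≠ 0

/-- The line bundle `O(d) ⊗ π^* M` on `ℙ(E)` is very ample. -/
def IsVeryAmple {n : ℕ} (g : Option k → Matrix (Fin n) (Fin n) K) (d : ℕ) (τ : Option k → K) :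
    Prop :=
  NoCommonZero g d τ ∧ SeparatesPoints g d τ ∧ SeparatesTangents g d τ

end Pool.Agent.FJ
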