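import Pool.Agent.Helper38.Scroll.P13
import Pool.Agent.FJ.Statement

/-!
# Forms with conditions: internal definitions
-/

set_option linter.unusedSectionVars false

namespace Pool.Agent.FJ

open Pool.Agent.Helper38.Scroll Matrix Module

section

/-- The linear form of a vector. -/
noncomputable def lin {n : ℕ} {R : Type} [CommRing R] (v : Fin n → R) :
    MvPolynomial (Fin n) R :=
  ∑ i, MvPolynomial.C (v i) * MvPolynomial.X i

variable {k K : Type} [Field k] [Field K] [Algebra (RatFunc k) K] [Algebra k K]
  [IsScalarTower k (RatFunc k) K] {n : ℕ}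

/-- The substitution `lin v ↦ lin (g *ᵥ v)`. -/
noncomputable def subst (g : Matrix (Fin n) (Fin n) K) :
    MvPolynomial (Fin n) K →ₐ[K] MvPolynomial (Fin n) K :=
  MvPolynomial.aeval (fun j => lin (fun i => g i j))

/-- From local coordinates to rational forms. -/
noncomputable def locMap (a : Option k) (t : K) (g : Matrix (Fin n) (Fin n) K) :
    MvPolynomial (Fin n) (regRing k K a) →ₗ[regRing k K a] MvPolynomial (Fin n) K where
  toFun T := MvPolynomial.C t *
    subst g (MvPolynomial.map (algebraMap (regRing k K a) K) T)
  map_add' T T' := by rw [map_add, map_add, mul_add]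
  map_smul' c T := by
    have h1 : MvPolynomial.map (algebraMap (regRing k K a) K) (c • T) =
        (c : K) • MvPolynomial.map (algebraMap (regRing k K a) K) T := by
      rw [MvPolynomial.smul_eq_C_mul, map_mul, MvPolynomial.map_C, MvPolynomial.smul_eq_C_mul]
      rfl
    rw [h1, map_smul, mul_smul_comm]
    rfl

/-- The forms of degree `e + 1` generated by the products of `v ∈ Λ` and a form of degree `e`. -/
noncomputable def Jmod (e : ℕ) {a : Option k}
    (Λ : Submodule (regRing k K a) (Fin n → regRing k K a)) :
    Submodule (regRing k K a) (MvPolynomial (Fin n) (regRing k K a)) :=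
  Submodule.span _ {P | ∃ v ∈ Λ, ∃ Y : MvPolynomial (Fin n) (regRing k K a),
    Y.IsHomogeneous e ∧ P = lin v * Y}

variable (K n) in
/-- The forms of degree `e + 1`. -/
abbrev Forms (e : ℕ) : Type := ↥(MvPolynomial.homogeneousSubmodule (Fin n) K (e + 1))

/-- The lattices. -/
noncomputable def Wlat (Q : Conditions k K n) (g : Option k → Matrix (Fin n) (Fin n) K)
    (e : ℕ) (τ : Option k → K) (a : Option k) : Submodule (localRing a) (Forms K n e) :=
  (((Jmod e (Q.Λ a)).map (locMap a (τ a) (g a))).restrictScalars (localRing a)).comap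
    ((MvPolynomial.homogeneousSubmodule (Fin n) K (e + 1)).subtype.restrictScalars (localRing a))

/-- Admissible local generators: the inverses are regular almost everywhere. -/
def IsTwist (τ : Option k → K) : Prop :=
  (∀ a, τ a ≠ 0) ∧ {a | (τ a)⁻¹ ∉ regRing k K a}.Finite

/-- A global section, internal form. -/
structure Sec (g : Option k → Matrix (Fin n) (Fin n) K) (d : ℕ) (τ : Option k → K) where
  form : MvPolynomial (Fin n) K
  loc : ∀ a : Option k, MvPolynomial (Fin n) (regRing k K a)
  homogeneous : ∀ a, (loc a).IsHomogeneous d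
  eq : ∀ a, form = locMap a (τ a) (g a) (loc a)

/-- Its value at a point. -/
noncomputable def Sec.value {g : Option k → Matrix (Fin n) (Fin n) K} {d : ℕ}
    {τ : Option k → K} (s : Sec g d τ) {R : Type} [CommRing R] [Algebra k R]
    {a : Option k} (θ : regRing k K a →ₐ[k] R) (ℓ : Fin n → R) : R :=
  MvPolynomial.eval₂ (θ : regRing k K a →+* R) ℓ (s.loc a)

end

end Pool.Agent.FJ
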