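import Pool.Agent.FJ.Defs

/-!
# Rank factorization of a functional on forms
-/

namespace Pool.Agent.FJ

open Matrix Module

/-- The linear form of a unit vector. -/
lemma fac_lin_single {K : Type} [Field K] {n : ℕ} (i : Fin n) :
    lin (Pi.single i (1 : K)) = MvPolynomial.X i := by
  unfold lin
  rw [Finset.sum_eq_single i]
  · simp
  · intro j _ hj
    simp [Pi.single_eq_of_ne hj]
  · intro h
    exact absurd (Finset.mem_univ i) h

lemma fac_toMultiset {K : Type} [Field K] {n : ℕ} (s : Fin n →₀ ℕ) :
    ((Finsupp.toMultiset s).map (MvPolynomial.X : Fin n → MvPolynomial (Fin n) K)).prod =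
      MvPolynomial.monomial s 1 := by
  induction s using Finsupp.induction_linear with
  | zero => simp
  | add f g hf hg =>
    rw [Finsupp.toMultiset_add, Multiset.map_add, Multiset.prod_add, hf, hg,
      MvPolynomial.monomial_mul, one_mul]
  | single a b =>
    rw [Finsupp.toMultiset_single, Multiset.map_nsmul, Multiset.prod_nsmul,
      Multiset.map_singleton, Multiset.prod_singleton, MvPolynomial.X_pow_eq_monomial]

/-- A monomial of degree `m` is a product of `m` variables. -/
lemma fac_word {K : Type} [Field K] {n m : ℕ} (s : Fin n →₀ ℕ) (hs : s.degree = m) :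
    ∃ w : Fin m → Fin n, ∏ l, (MvPolynomial.X (w l) : MvPolynomial (Fin n) K) =
      MvPolynomial.monomial s 1 := by
  have hlen : (Finsupp.toMultiset s).toList.length = m := by
    rw [Multiset.length_toList, Finsupp.card_toMultiset, ← hs]
    rfl
  subst hlen
  refine ⟨fun l => (Finsupp.toMultiset s).toList.get l, ?_⟩
  have h1 : ∏ l, (MvPolynomial.X ((Finsupp.toMultiset s).toList.get l) :
      MvPolynomial (Fin n) K) =
      ((Finsupp.toMultiset s).toList.map MvPolynomial.X).prod := by
    rw [← List.prod_ofFn]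
    congr 1
    exact List.ofFn_getElem_eq_map _ _
  rw [h1]
  have h2 : ((Finsupp.toMultiset s).toList.map
      (MvPolynomial.X : Fin n → MvPolynomial (Fin n) K)).prod =
      ((Finsupp.toMultiset s).map MvPolynomial.X).prod := by
    conv_rhs => rw [← Multiset.coe_toList (Finsupp.toMultiset s)]
    rw [Multiset.map_coe, Multiset.prod_coe]
  rw [h2, fac_toMultiset]

/-- A linear functional which vanishes at the words vanishes at all forms. -/
lemma fac_ext {K : Type} [Field K] {n m : ℕ} (ψ : MvPolynomial (Fin n) K →ₗ[K] K)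
    (h : ∀ w : Fin m → Fin n, ψ (∏ l, MvPolynomial.X (w l)) = 0)
    {Y : MvPolynomial (Fin n) K} (hY : Y.IsHomogeneous m) : ψ Y = 0 := by
  rw [← MvPolynomial.support_sum_monomial_coeff Y, map_sum]
  refine Finset.sum_eq_zero fun s hs => ?_
  have hdeg : s.degree = m := by
    have h1 := hY (MvPolynomial.mem_support_iff.mp hs)
    rw [← h1, Finsupp.degree_eq_weight_one]
    rfl
  obtain ⟨w, hw⟩ := fac_word (K := K) s hdeg
  have h2 : MvPolynomial.monomial s (MvPolynomial.coeff s Y) =
      MvPolynomial.coeff s Y • ∏ l, (MvPolynomial.X (w l) : MvPolynomial (Fin n) K) := by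
    rw [hw, MvPolynomial.smul_monomial, smul_eq_mul, mul_one]
  rw [h2, map_smul, h w, smul_zero]

/-- The linear map `v ↦ lin v`. -/
noncomputable def facLin (K : Type) [Field K] (n : ℕ) :
    (Fin n → K) →ₗ[K] MvPolynomial (Fin n) K where
  toFun v := lin v
  map_add' v w := by
    simp only [lin, Pi.add_apply, map_add, add_mul, Finset.sum_add_distrib]
  map_smul' c v := by
    simp only [lin, Pi.smul_apply, smul_eq_mul, map_mul, RingHom.id_apply, Finset.smul_sum,
      MvPolynomial.smul_eq_C_mul, mul_assoc]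

/-- The values at the words. -/
noncomputable def facL {K : Type} [Field K] {n : ℕ} (e : ℕ)
    (φ : MvPolynomial (Fin n) K →ₗ[K] K) : (Fin n → K) →ₗ[K] ((Fin e → Fin n) → K) :=
  LinearMap.pi fun w => φ ∘ₗ
    (LinearMap.mulRight K (∏ l, (MvPolynomial.X (w l) : MvPolynomial (Fin n) K))) ∘ₗ facLin K n

lemma facL_apply {K : Type} [Field K] {n e : ℕ} (φ : MvPolynomial (Fin n) K →ₗ[K] K)
    (v : Fin n → K) (w : Fin e → Fin n) :
    facL e φ v w = φ (lin v * ∏ l, MvPolynomial.X (w l)) := rfl

/-- An injective linear map `K^r → K^W` has `r` independent coordinates. -/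
lemma fac_minor {K W : Type} [Field K] [Fintype W] {r : ℕ}
    (q : (Fin r → K) →ₗ[K] (W → K)) (hq : Function.Injective q) :
    ∃ w : Fin r → W, (Matrix.of fun i j => q (Pi.single i 1) (w j)).det ≠ 0 := by
  classical
  let N : Matrix W (Fin r) K := LinearMap.toMatrix' q
  have hN : N.rank = r := by
    have h1 : N.mulVecLin = q := Matrix.toLin'_toMatrix' q
    rw [Matrix.rank, h1, LinearMap.finrank_range_of_inj hq, finrank_fin_fun]
  obtain ⟨κ, a, ha, hsp, hli⟩ := exists_linearIndependent' K N.row
  have hfin : Finite κ := Finite.of_injective a ha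
  have : Fintype κ := Fintype.ofFinite κ
  have hcard : Fintype.card κ = r := by
    rw [linearIndependent_iff_card_eq_finrank_span.mp hli, Set.finrank, hsp,
      ← Matrix.rank_eq_finrank_span_row]
    exact hN
  let E : Fin r ≃ κ := (Fintype.equivFinOfCardEq hcard).symm
  refine ⟨fun j => a (E j), ?_⟩
  have h1 : LinearIndependent K (N.row ∘ (fun j => a (E j))) := hli.comp E E.injective
  have h2 : IsUnit (Matrix.of fun j i => q (Pi.single i 1) (a (E j))) := by
    rw [← Matrix.linearIndependent_rows_iff_isUnit]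
    have h3 : (Matrix.of fun j i => q (Pi.single i 1) (a (E j))).row =
        N.row ∘ (fun j => a (E j)) := by
      funext j i
      simp only [N, Matrix.row, Function.comp, Matrix.of_apply, LinearMap.toMatrix'_apply]
    rw [h3]
    exact h1
  have h4 := (Matrix.isUnit_iff_isUnit_det _).mp h2
  rw [← Matrix.det_transpose]
  exact h4.ne_zero

theorem exists_factor {K : Type} [Field K] {n e : ℕ} (φ : MvPolynomial (Fin n) K →ₗ[K] K)
    (hφ : ∃ P : MvPolynomial (Fin n) K, P.IsHomogeneous (e + 1) ∧ φ P ≠ 0) :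
    ∃ (r : ℕ) (_ : 0 < r) (A : Matrix (Fin r) (Fin n) K) (R : Matrix (Fin n) (Fin r) K),
      A * R = 1 ∧
      (∀ κ : Fin n → K, A *ᵥ κ = 0 → ∀ Y : MvPolynomial (Fin n) K, Y.IsHomogeneous e →
        φ (lin κ * Y) = 0) ∧
      ∃ y : Fin r → Fin e → Fin n → K,
        (Matrix.of fun i j => φ (lin (R *ᵥ Pi.single i 1) * ∏ l, lin (y j l))).det ≠ 0 := by
  classical
  set f := facL e φ with hf
  have hf0 : f ≠ 0 := by
    intro h0
    obtain ⟨P, hP, hP0⟩ := hφ
    apply hP0
    refine fac_ext φ (fun w => ?_) hP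
    have h1 : f (Pi.single (w 0) 1) (fun l => w l.succ) = 0 := by rw [h0]; rfl
    rw [hf, facL_apply, fac_lin_single] at h1
    rw [Fin.prod_univ_succ]
    exact h1
  set r := finrank K (LinearMap.range f) with hr
  have hpos : 0 < r := by
    rw [hr, Module.finrank_pos_iff_exists_ne_zero]
    by_contra hcon
    push Not at hcon
    apply hf0
    ext i w
    have h1 := hcon ⟨f (Pi.single i 1), ⟨_, rfl⟩⟩
    have h2 := congrFun (congrArg Subtype.val h1) w
    simpa using h2
  let E : LinearMap.range f ≃ₗ[K] (Fin r → K) :=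
    LinearEquiv.ofFinrankEq _ _ (by rw [Module.finrank_fin_fun])
  let p : (Fin n → K) →ₗ[K] (Fin r → K) := E.toLinearMap ∘ₗ f.rangeRestrict
  let q : (Fin r → K) →ₗ[K] ((Fin e → Fin n) → K) :=
    (LinearMap.range f).subtype ∘ₗ E.symm.toLinearMap
  have hqp : q ∘ₗ p = f := by
    ext v i
    simp [p, q]
  have hp : Function.Surjective p :=
    E.surjective.comp (LinearMap.surjective_rangeRestrict f)
  have hq : Function.Injective q :=
    (Submodule.injective_subtype _).comp E.symm.injective
  obtain ⟨s, hs⟩ := p.exists_rightInverse_of_surjective (LinearMap.range_eq_top.mpr hp)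
  refine ⟨r, hpos, LinearMap.toMatrix' p, LinearMap.toMatrix' s, ?_, ?_, ?_⟩
  · rw [← LinearMap.toMatrix'_comp, hs, LinearMap.toMatrix'_id]
  · intro κ hκ Y hY
    have h1 : p κ = 0 := by
      rw [← hκ]
      exact (LinearMap.congr_fun (Matrix.toLin'_toMatrix' p) κ).symm
    have h2 : f κ = 0 := by
      rw [← hqp, LinearMap.comp_apply, h1, map_zero]
    have h3 := fac_ext (φ ∘ₗ LinearMap.mulLeft K (lin κ)) (m := e) (fun w => ?_) hY
    · exact h3
    · have h4 := congrFun h2 w
      rw [hf, facL_apply] at h4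
      exact h4
  · obtain ⟨w, hw⟩ := fac_minor q hq
    refine ⟨fun j l => Pi.single (w j l) 1, ?_⟩
    have h1 : (Matrix.of fun i j => φ (lin (LinearMap.toMatrix' s *ᵥ Pi.single i 1) *
        ∏ l, lin (Pi.single (w j l) (1 : K)))) =
        (Matrix.of fun i j => q (Pi.single i 1) (w j)) := by
      ext i j
      simp only [Matrix.of_apply, fac_lin_single]
      have h2 : LinearMap.toMatrix' s *ᵥ Pi.single i 1 = s (Pi.single i 1) :=
        LinearMap.congr_fun (Matrix.toLin'_toMatrix' s) _
      have h3 : q (Pi.single i 1) = f (s (Pi.single i 1)) := by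
        have h4 : p (s (Pi.single i 1)) = Pi.single i 1 := LinearMap.congr_fun hs _
        calc q (Pi.single i 1) = q (p (s (Pi.single i 1))) := by rw [h4]
          _ = f (s (Pi.single i 1)) := LinearMap.congr_fun hqp _
      rw [h2, h3, hf, facL_apply]
    rw [h1]
    exact hw

end Pool.Agent.FJ
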