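import Pool.Agent.FJ.LIN

/-!
# Forms with conditions: the lattice family
-/

set_option linter.unusedSectionVars false

namespace Pool.Agent.FJ

open Pool.Agent.Helper38.Scroll Matrix Module

section

variable {k K : Type} [Field k] [Field K] [Algebra (RatFunc k) K] [Algebra k K]
  [IsScalarTower k (RatFunc k) K] {n : ℕ}

/-- A polynomial with regular coefficients comes from a polynomial over the regular ring. -/
lemma LAT_exists_map {a : Option k} {P : MvPolynomial (Fin n) K}
    (hP : ∀ s, P.coeff s ∈ regRing k K a) :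
    ∃ P' : MvPolynomial (Fin n) (regRing k K a),
      MvPolynomial.map (algebraMap (regRing k K a) K) P' = P := by
  refine ⟨∑ s ∈ P.support, MvPolynomial.monomial s ⟨P.coeff s, hP s⟩, ?_⟩
  rw [map_sum]
  conv_rhs => rw [MvPolynomial.as_sum P]
  refine Finset.sum_congr rfl fun s _ => ?_
  rw [MvPolynomial.map_monomial]
  rfl

/-- Substitution by a regular matrix preserves the regularity of the coefficients. -/
lemma LAT_coeff_subst {a : Option k} {g : Matrix (Fin n) (Fin n) K}
    (hg : ∀ i j, g i j ∈ regRing k K a) {P : MvPolynomial (Fin n) K}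
    (hP : ∀ s, P.coeff s ∈ regRing k K a) (s : Fin n →₀ ℕ) :
    (subst g P).coeff s ∈ regRing k K a := by
  obtain ⟨P', rfl⟩ := LAT_exists_map hP
  set G : Fin n → MvPolynomial (Fin n) (regRing k K a) := fun j =>
    lin (fun i => (⟨g i j, hg i j⟩ : regRing k K a)) with hG
  have h1 : subst g (MvPolynomial.map (algebraMap (regRing k K a) K) P') =
      MvPolynomial.map (algebraMap (regRing k K a) K) (MvPolynomial.aeval G P') := by
    induction P' using MvPolynomial.induction_on with
    | C c =>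
      rw [MvPolynomial.map_C, subst, ← MvPolynomial.algebraMap_eq, AlgHom.commutes,
        ← MvPolynomial.algebraMap_eq, AlgHom.commutes, MvPolynomial.algebraMap_eq,
        MvPolynomial.algebraMap_eq, MvPolynomial.map_C]
    | add p q hp hq =>
      rw [map_add, map_add, map_add, map_add, hp (fun s => by
        rw [MvPolynomial.coeff_map]; exact Subtype.property _), hq (fun s => by
        rw [MvPolynomial.coeff_map]; exact Subtype.property _)]
    | mul_X p i hp =>
      rw [map_mul, map_mul, map_mul, map_mul, hp (fun s => by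
        rw [MvPolynomial.coeff_map]; exact Subtype.property _), MvPolynomial.map_X,
        MvPolynomial.aeval_X, hG, map_lin, subst, MvPolynomial.aeval_X]
      rfl
  rw [h1, MvPolynomial.coeff_map]
  exact Subtype.property _

lemma LAT_subst_inv {g : Matrix (Fin n) (Fin n) K} (hg : g.det ≠ 0)
    (P : MvPolynomial (Fin n) K) : subst g (subst g⁻¹ P) = P := by
  rw [← AlgHom.comp_apply, ← subst_mul, Matrix.mul_nonsing_inv _ (isUnit_iff_ne_zero.mpr hg),
    subst_one]
  rfl

variable [IsAlgClosed k] [CharZero k] [FiniteDimensional (RatFunc k) K]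

lemma LAT_mem_Wlat {Q : Conditions k K n} {g : Option k → Matrix (Fin n) (Fin n) K}
    {e : ℕ} {τ : Option k → K} {a : Option k} {u : Forms K n e} :
    u ∈ Wlat Q g e τ a ↔ ∃ T ∈ Jmod e (Q.Λ a), locMap a (τ a) (g a) T = u := Iff.rfl

lemma Wlat_fin (Q : Conditions k K n) {g : Option k → Matrix (Fin n) (Fin n) K} (hg : IsBundle g)
    (e : ℕ) {τ : Option k → K} (hτ : IsTwist τ) (u : Forms K n e) :
    {a | u ∉ Wlat Q g e τ a}.Finite := by
  have hcoef : {a : Option k | ∃ s ∈ (u : MvPolynomial (Fin n) K).support,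
      (u : MvPolynomial (Fin n) K).coeff s ∉ regRing k K a}.Finite := by
    have h1 : {a : Option k | ∃ s ∈ (u : MvPolynomial (Fin n) K).support,
      (u : MvPolynomial (Fin n) K).coeff s ∉ regRing k K a} =
      ⋃ s ∈ (u : MvPolynomial (Fin n) K).support,
        {a : Option k | (u : MvPolynomial (Fin n) K).coeff s ∉ regRing k K a} := by
      ext a
      simp
    rw [h1]
    exact Set.Finite.biUnion (Finset.finite_toSet _) fun s _ => regRing_cofinite _
  refine (((Q.fin.union hg.2).union hτ.2).union hcoef).subset ?_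
  intro a ha
  by_contra hcon
  simp only [Set.mem_union, Set.mem_ofPred_eq, not_or, not_not, not_exists, not_and] at hcon
  obtain ⟨⟨⟨h1, h2⟩, h3⟩, h4⟩ := hcon
  apply ha
  obtain ⟨h5, h6⟩ := integral_of_lattice_eq (hg.1 _) h2
  have h4' : ∀ s, (u : MvPolynomial (Fin n) K).coeff s ∈ regRing k K a := by
    intro s
    by_cases hs : s ∈ (u : MvPolynomial (Fin n) K).support
    · exact h4 s hs
    · rw [MvPolynomial.notMem_support_iff.1 hs]
      exact Subalgebra.zero_mem _
  have hhom : (u : MvPolynomial (Fin n) K).IsHomogeneous (e + 1) :=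
    (MvPolynomial.mem_homogeneousSubmodule _ _).1 u.2
  obtain ⟨T, hT1, hT2⟩ := exists_locMap (a := a) (hτ.1 a) (hg.1 a) hhom (by
    intro s
    rw [MvPolynomial.coeff_C_mul]
    exact Subalgebra.mul_mem _ h3 (LAT_coeff_subst h6 h4' s))
  exact LAT_mem_Wlat.2 ⟨T, mem_Jmod_top h1 hT1, hT2⟩

/-- every homogeneous form is absorbed -/
lemma LAT_Jmod_absorb (Q : Conditions k K n) (e : ℕ) (a : Option k)
    {T : MvPolynomial (Fin n) (regRing k K a)} (hT : T.IsHomogeneous (e + 1)) :
    ∃ m : ℕ, (⟨_, pow_mem (unifAt_mem a) m⟩ : localRing a) • T ∈ Jmod e (Q.Λ a) := by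
  choose m hm using fun i : Fin n => Q.absorb a (Pi.single i 1)
  refine ⟨∑ i, m i, ?_⟩
  have h1 : ∀ i, (⟨_, pow_mem (unifAt_mem a) (∑ i, m i)⟩ : localRing a) •
      (Pi.single i (1 : regRing k K a) : Fin n → regRing k K a) ∈ Q.Λ a := by
    intro i
    have h2 : m i ≤ ∑ i, m i := Finset.single_le_sum (fun _ _ => Nat.zero_le _) (Finset.mem_univ i)
    obtain ⟨d, hd⟩ := Nat.exists_eq_add_of_le' h2
    have h3 : (⟨_, pow_mem (unifAt_mem a) (∑ i, m i)⟩ : localRing a) =
        (⟨_, pow_mem (unifAt_mem a) d⟩ : localRing a) *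
          (⟨_, pow_mem (unifAt_mem a) (m i)⟩ : localRing a) := by
      apply Subtype.ext
      change unifAt a ^ (∑ i, m i) = unifAt a ^ d * unifAt a ^ (m i)
      rw [hd, pow_add]
    rw [h3, mul_smul]
    exact (Q.Λ a).smul_of_tower_mem _ (hm i)
  obtain ⟨Y, hY, rfl⟩ := exists_eq_sum_X_mul hT
  rw [Finset.smul_sum]
  refine Submodule.sum_mem _ fun i _ => ?_
  refine Submodule.subset_span ⟨_, h1 i, Y i, hY i, ?_⟩
  set c : localRing a := (⟨_, pow_mem (unifAt_mem a) (∑ i, m i)⟩ : localRing a) with hc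
  have h4 : c • (Pi.single i (1 : regRing k K a) : Fin n → regRing k K a) =
      (algebraMap (localRing a) (regRing k K a) c) •
        (Pi.single i (1 : regRing k K a) : Fin n → regRing k K a) := by
    rw [algebraMap_smul]
  rw [h4, lin_smul, lin_single, map_one, one_mul, ← MvPolynomial.smul_eq_C_mul, smul_mul_assoc,
    algebraMap_smul]

lemma Wlat_absorb (Q : Conditions k K n) {g : Option k → Matrix (Fin n) (Fin n) K}
    (hg : IsBundle g) (e : ℕ) {τ : Option k → K} (hτ : IsTwist τ) (a : Option k)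
    (u : Forms K n e) : ∃ m : ℕ, (unifAt a) ^ m • u ∈ Wlat Q g e τ a := by
  have hhom : (u : MvPolynomial (Fin n) K).IsHomogeneous (e + 1) :=
    (MvPolynomial.mem_homogeneousSubmodule _ _).1 u.2
  set X : MvPolynomial (Fin n) K := MvPolynomial.C (τ a)⁻¹ *
    subst (g a)⁻¹ (u : MvPolynomial (Fin n) K) with hX
  obtain ⟨m₁, hm₁⟩ : ∃ m : ℕ, ∀ s, (unifAt a) ^ m • X.coeff s ∈ regRing k K a := by
    choose m hm using fun s => regRing_absorb (k := k) a (X.coeff s)
    refine ⟨∑ s ∈ X.support, m s, fun s => ?_⟩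
    by_cases hs : s ∈ X.support
    · have h1 : m s ≤ ∑ s ∈ X.support, m s :=
        Finset.single_le_sum (fun _ _ => Nat.zero_le _) hs
      obtain ⟨d, hd⟩ := Nat.exists_eq_add_of_le' h1
      rw [hd, pow_add, mul_smul]
      exact smul_regRing_mem (pow_mem (unifAt_mem a) d) (hm s)
    · rw [MvPolynomial.notMem_support_iff.1 hs, smul_zero]
      exact Subalgebra.zero_mem _
  have hhom' : ((unifAt a) ^ m₁ • (u : MvPolynomial (Fin n) K)).IsHomogeneous (e + 1) :=
    (MvPolynomial.mem_homogeneousSubmodule _ _).1 ((unifAt a) ^ m₁ • u).2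
  obtain ⟨T, hT1, hT2⟩ := exists_locMap (a := a) (hτ.1 a) (hg.1 a) hhom' (by
    intro s
    have h1 : MvPolynomial.C (τ a)⁻¹ * subst (g a)⁻¹
        ((unifAt a) ^ m₁ • (u : MvPolynomial (Fin n) K)) = (unifAt a) ^ m₁ • X := by
      rw [hX, ← algebraMap_smul K ((unifAt a) ^ m₁) (u : MvPolynomial (Fin n) K), map_smul,
        mul_smul_comm, algebraMap_smul]
    rw [h1, MvPolynomial.coeff_smul]
    exact hm₁ s)
  obtain ⟨m₂, hm₂⟩ := LAT_Jmod_absorb Q e a hT1
  refine ⟨m₂ + m₁, LAT_mem_Wlat.2 ⟨_, hm₂, ?_⟩⟩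
  rw [← algebraMap_smul (regRing k K a)
    (⟨_, pow_mem (unifAt_mem a) m₂⟩ : localRing a) T, map_smul, hT2, pow_add, mul_smul]
  refine MvPolynomial.ext _ _ fun s => ?_
  change _ = MvPolynomial.coeff s ((unifAt a) ^ m₂ • ((unifAt a) ^ m₁ •
    (u : MvPolynomial (Fin n) K)))
  simp only [MvPolynomial.coeff_smul]
  rw [Algebra.smul_def ((unifAt a) ^ m₂)]
  rfl

/-- The lattice family. -/
noncomputable def latFam (Q : Conditions k K n) {g : Option k → Matrix (Fin n) (Fin n) K}
    (hg : IsBundle g) (e : ℕ) {τ : Option k → K} (hτ : IsTwist τ) :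
    LatticeFamily k (Forms K n e) where
  W := Wlat Q g e τ
  fin := Wlat_fin Q hg e hτ
  absorb := Wlat_absorb Q hg e hτ

end

end Pool.Agent.FJ
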