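import Pool.Agent.FJ.Defs

/-!
# FJ, module LGT: the theorem in terms of `Statement.lean`, sums of positive line bundles
-/

set_option linter.unusedSectionVars false

namespace Pool.Agent.FJ

open Pool.Agent.Helper38.Scroll Matrix Module

section

variable {k K : Type} [Field k] [Field K] [Algebra (RatFunc k) K] [Algebra k K]
  [IsScalarTower k (RatFunc k) K] {n : ℕ}

lemma lgt_algebraMap_inc (a : Option k) :
    (algebraMap (Curve.regularRing k K a) K).comp
      (inc (k := k) (K := K) a).toRingHom = algebraMap (regRing k K a) K :=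
  RingHom.ext fun _ => rfl

lemma lgt_locMap (a : Option k) (t : K) (g : Matrix (Fin n) (Fin n) K)
    (T : MvPolynomial (Fin n) (regRing k K a)) :
    locMap a t g T = MvPolynomial.C t * MvPolynomial.aeval
      (fun j => ∑ i, MvPolynomial.C (g i j) * MvPolynomial.X i)
      (MvPolynomial.map (algebraMap (regRing k K a) K) T) := rfl

/-- The section attached to a section. -/
noncomputable def Sec.lgtToLight {g : Option k → Matrix (Fin n) (Fin n) K} {d : ℕ}
    {τ : Option k → K} (s : Sec g d τ) : GlobalSection g d τ where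
  form := s.form
  loc a := MvPolynomial.map (inc (k := k) (K := K) a).toRingHom (s.loc a)
  homogeneous a := (s.homogeneous a).map _
  eq a := by
    rw [MvPolynomial.map_map, lgt_algebraMap_inc, ← lgt_locMap, ← s.eq a]

lemma lgt_value {g : Option k → Matrix (Fin n) (Fin n) K} {d : ℕ}
    {τ : Option k → K} (s : Sec g d τ) {R : Type} [CommRing R] [Algebra k R] {a : Option k}
    (θ : Curve.PointOver k K a R) (ℓ : Fin n → R) :
    s.lgtToLight.value θ ℓ = s.value (θ.comp (inc a)) ℓ := by
  rw [GlobalSection.value, Sec.value]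
  change MvPolynomial.eval₂ (θ : Curve.regularRing k K a →+* R) ℓ
    (MvPolynomial.map (inc (k := k) (K := K) a).toRingHom (s.loc a)) = _
  rw [MvPolynomial.eval₂_map]
  rfl

end

section

variable {k K : Type} [Field k] [Field K] [Algebra (RatFunc k) K] [Algebra k K]
  [IsScalarTower k (RatFunc k) K] [IsAlgClosed k] [CharZero k] [FiniteDimensional (RatFunc k) K]
  {n : ℕ}

/-- passing to the definitions of `Statement.lean` -/
theorem light_veryAmple {g : Option k → Matrix (Fin n) (Fin n) K} {d : ℕ} {τ : Option k → K}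
    (h1 : ∀ (p : CurvePoint k K) (x : Projectivization k (Fin n → k)),
      ∃ s : Sec g d τ, s.value p.2 x.rep ≠ 0)
    (h2 : ∀ (p p' : CurvePoint k K) (x x' : Projectivization k (Fin n → k)),
      (p, x) ≠ (p', x') → ∃ s : Sec g d τ, s.value p.2 x.rep = 0 ∧ s.value p'.2 x'.rep ≠ 0)
    (h3 : ∀ (a : Option k) (θ : regRing k K a →ₐ[k] DualNumber k) (ℓ : Fin n → DualNumber k),
      (∃ i, (ℓ i).fst ≠ 0) →
      ¬ ((∀ b, (θ b).snd = 0) ∧ ∃ c : k, ∀ i, (ℓ i).snd = c * (ℓ i).fst) →
      ∃ s : Sec g d τ, (s.value θ ℓ).fst = 0 ∧ (s.value θ ℓ).snd ≠ 0) :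
    IsVeryAmple g d τ := by
  refine ⟨?_, ?_, ?_⟩
  · intro p x
    obtain ⟨s, hs⟩ := h1 ⟨p.1, p.2.comp (inc _)⟩ x
    refine ⟨s.lgtToLight, ?_⟩
    rw [lgt_value]
    exact hs
  · intro p p' x x' hne
    have hne' : ((⟨p.1, p.2.comp (inc _)⟩, x) : CurvePoint k K × _) ≠
        (⟨p'.1, p'.2.comp (inc _)⟩, x') := by
      intro h
      apply hne
      obtain ⟨a, θ⟩ := p
      obtain ⟨b, θ'⟩ := p'
      have h1 := congrArg Prod.fst h
      have h2 := congrArg Prod.snd h
      have h3 : a = b := congrArg Sigma.fst h1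
      subst h3
      have h4 : θ.comp (inc a) = θ'.comp (inc a) := eq_of_heq (Sigma.mk.inj h1).2
      have h5 : θ = θ' := by
        apply AlgHom.ext
        intro y
        obtain ⟨z, rfl⟩ := inc_surjective a y
        exact congrArg (fun F => F z) h4
      have h6 : x = x' := h2
      rw [h5, h6]
    obtain ⟨s, hs, hs'⟩ := h2 _ _ x x' hne'
    refine ⟨s.lgtToLight, ?_, ?_⟩
    · rw [lgt_value]
      exact hs
    · rw [lgt_value]
      exact hs'
  · intro a θ ℓ hℓ hne
    obtain ⟨s, hs, hs'⟩ := h3 a (θ.comp (inc a)) ℓ hℓ (by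
      rintro ⟨h1, h2⟩
      refine hne ⟨fun b => ?_, h2⟩
      obtain ⟨z, rfl⟩ := inc_surjective a b
      exact h1 z)
    refine ⟨s.lgtToLight, ?_, ?_⟩
    · rw [lgt_value]
      exact hs
    · rw [lgt_value]
      exact hs'

lemma lgt_ordOver_prod (a : Option k) {p : ℕ} (f : Fin p → K) (hf : ∀ i, f i ≠ 0) :
    ordOver a (∏ i, f i) = ∑ i, ordOver a (f i) := by
  have key : ∀ s : Finset (Fin p), ordOver a (∏ i ∈ s, f i) = ∑ i ∈ s, ordOver a (f i) := by
    intro s
    induction s using Finset.induction_on with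
    | empty => rw [Finset.prod_empty, Finset.sum_empty, ordOver_one]
    | insert i s his ih =>
      rw [Finset.prod_insert his, Finset.sum_insert his,
        ordOver_mul a (hf i) (Finset.prod_ne_zero_iff.mpr fun j _ => hf j), ih]
  exact key Finset.univ

lemma lgt_support {β : Option k → K} (hβ : IsLineBundle β) :
    (Function.support fun a => ordOver a (β a)).Finite := by
  refine hβ.2.subset ?_
  intro a ha
  rw [Function.mem_support] at ha
  rw [Set.mem_ofPred_eq]
  intro h
  exact ha (ordOver_unit (hβ.1 a) h.1 h.2)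

lemma lgt_lineDegree_prod {p : ℕ} {β : Fin p → Option k → K} (hβ : ∀ i, IsLineBundle (β i)) :
    lineDegree (fun a => ∏ i, β i a) = ∑ i, lineDegree (β i) := by
  simp only [lineDegree, light_ordOver]
  have e1 : (fun a => ordOver a (∏ i, β i a)) = fun a => ∑ i, ordOver a (β i a) := by
    funext a
    exact lgt_ordOver_prod a (fun i => β i a) (fun i => (hβ i).1 a)
  rw [e1, finsum_sum_comm Finset.univ (fun a i => ordOver a (β i a))
    (fun i _ => lgt_support (hβ i)), Finset.sum_neg_distrib]

/-- sums of positive line bundles -/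
lemma positive_sum {g : Option k → Matrix (Fin n) (Fin n) K} {p : ℕ}
    {m : Fin p → ℕ} {β : Fin p → Option k → K} (hβ : ∀ i, IsLineBundle (β i))
    (hA : ∀ i, IsPositive g (m i) (β i)) :
    IsLineBundle (fun a => ∏ i, β i a) ∧ p ≤ ∑ i, m i ∧
    ∀ s : ℕ, 0 < s → ∀ A : Matrix (Fin s) (Fin n) K, A.rank = s →
      ∀ h : Option k → Matrix (Fin s) (Fin s) K, IsQuotientBundle g A h →
        (p : ℤ) ≤ (∑ i, m i : ℕ) * degree h + s * lineDegree (fun a => ∏ i, β i a) := by
  refine ⟨⟨fun a => Finset.prod_ne_zero_iff.mpr fun i _ => (hβ i).1 a, ?_⟩, ?_, ?_⟩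
  · refine (Set.finite_iUnion fun i => (hβ i).2).subset ?_
    intro a ha
    by_contra hcon
    rw [Set.mem_iUnion, not_exists] at hcon
    apply ha
    have h1 : ∀ i, Curve.Regular a (β i a) ∧ Curve.Regular a (β i a)⁻¹ := by
      intro i
      by_contra h
      exact hcon i h
    refine ⟨?_, ?_⟩
    · have : (∏ i, β i a) ∈ regRing k K a := Subalgebra.prod_mem _ fun i _ => (h1 i).1
      exact this
    · have : (∏ i, (β i a)⁻¹) ∈ regRing k K a := Subalgebra.prod_mem _ fun i _ => (h1 i).2
      rw [Finset.prod_inv_distrib] at this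
      exact this
  · calc p = ∑ i : Fin p, 1 := by simp
      _ ≤ ∑ i, m i := Finset.sum_le_sum fun i _ => (hA i).1
  · intro s hs A hA' h hh
    rw [lgt_lineDegree_prod hβ]
    have h1 : ∀ i, (1 : ℤ) ≤ m i * degree h + s * lineDegree (β i) := by
      intro i
      have := (hA i).2 s hs A hA' h (light_quotient hh)
      rw [light_degree] at this
      linarith
    have h2 : ∑ i : Fin p, (1 : ℤ) ≤ ∑ i, (m i * degree h + s * lineDegree (β i)) :=
      Finset.sum_le_sum fun i _ => h1 i
    rw [Finset.sum_add_distrib, ← Finset.sum_mul, ← Finset.mul_sum] at h2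
    push_cast
    simpa using h2

end

end Pool.Agent.FJ
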