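import Pool.Agent.FJ.Defs

/-!
# Linear forms, substitutions and the local maps
-/

set_option linter.unusedSectionVars false

namespace Pool.Agent.FJ

open Pool.Agent.Helper38.Scroll Matrix Module

variable {k K : Type} [Field k] [Field K] [Algebra (RatFunc k) K] [Algebra k K]
  [IsScalarTower k (RatFunc k) K] {n : ℕ}

lemma lin_add {R : Type} [CommRing R] (v w : Fin n → R) : lin (v + w) = lin v + lin w := by
  simp only [lin, Pi.add_apply, map_add, add_mul, Finset.sum_add_distrib]

lemma lin_smul {R : Type} [CommRing R] (c : R) (v : Fin n → R) :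
    lin (c • v) = MvPolynomial.C c * lin v := by
  simp only [lin, Pi.smul_apply, smul_eq_mul, map_mul, mul_assoc, Finset.mul_sum]

lemma lin_single {R : Type} [CommRing R] (i : Fin n) (c : R) :
    lin (Pi.single i c : Fin n → R) = MvPolynomial.C c * MvPolynomial.X i := by
  unfold lin
  rw [Finset.sum_eq_single i]
  · rw [Pi.single_eq_same]
  · intro j _ hj
    rw [Pi.single_eq_of_ne hj, map_zero, zero_mul]
  · simp

lemma lin_isHomogeneous {R : Type} [CommRing R] (v : Fin n → R) : (lin v).IsHomogeneous 1 := by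
  unfold lin
  apply MvPolynomial.IsHomogeneous.sum
  intro i _
  have := (MvPolynomial.isHomogeneous_C (Fin n) (v i)).mul (MvPolynomial.isHomogeneous_X R i)
  simpa using this

lemma prod_lin_isHomogeneous {R : Type} [CommRing R] {e : ℕ} (v : Fin e → Fin n → R) :
    (∏ l, lin (v l)).IsHomogeneous e := by
  have := MvPolynomial.IsHomogeneous.prod Finset.univ (fun l => lin (v l)) (fun _ => 1)
    (fun l _ => lin_isHomogeneous (v l))
  simpa using this

lemma eval₂_lin {R S : Type} [CommRing R] [CommRing S] (f : R →+* S) (ℓ : Fin n → S)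
    (v : Fin n → R) : MvPolynomial.eval₂ f ℓ (lin v) = ∑ i, ℓ i * f (v i) := by
  unfold lin
  rw [MvPolynomial.eval₂_sum]
  apply Finset.sum_congr rfl
  intro i _
  rw [MvPolynomial.eval₂_mul, MvPolynomial.eval₂_C, MvPolynomial.eval₂_X, mul_comm]

lemma map_lin {R S : Type} [CommRing R] [CommRing S] (f : R →+* S) (v : Fin n → R) :
    MvPolynomial.map f (lin v) = lin (fun i => f (v i)) := by
  simp only [lin, map_sum, map_mul, MvPolynomial.map_C, MvPolynomial.map_X]

lemma subst_lin (g : Matrix (Fin n) (Fin n) K) (v : Fin n → K) :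
    subst g (lin v) = lin (g *ᵥ v) := by
  unfold subst
  rw [MvPolynomial.aeval_def, eval₂_lin]
  unfold lin
  simp only [Matrix.mulVec, dotProduct, map_sum, map_mul, Finset.sum_mul]
  rw [Finset.sum_comm]
  apply Finset.sum_congr rfl
  intro i _
  apply Finset.sum_congr rfl
  intro j _
  rw [MvPolynomial.algebraMap_eq]
  ring

lemma LIN_subst_X (g : Matrix (Fin n) (Fin n) K) (j : Fin n) :
    subst g (MvPolynomial.X j) = lin (fun i => g i j) := by
  unfold subst
  rw [MvPolynomial.aeval_X]

lemma subst_one : subst (1 : Matrix (Fin n) (Fin n) K) = AlgHom.id K _ := by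
  apply MvPolynomial.algHom_ext
  intro j
  rw [LIN_subst_X, AlgHom.id_apply]
  have h1 : (fun i => (1 : Matrix (Fin n) (Fin n) K) i j) = Pi.single j 1 := by
    ext i
    rw [Matrix.one_apply, Pi.single_apply]
  rw [h1, lin_single, map_one, one_mul]

lemma subst_mul (g h : Matrix (Fin n) (Fin n) K) :
    subst (g * h) = (subst g).comp (subst h) := by
  apply MvPolynomial.algHom_ext
  intro j
  rw [AlgHom.comp_apply, LIN_subst_X, LIN_subst_X, subst_lin]
  rfl

lemma subst_isHomogeneous (g : Matrix (Fin n) (Fin n) K) {P : MvPolynomial (Fin n) K} {m : ℕ}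
    (hP : P.IsHomogeneous m) : (subst g P).IsHomogeneous m := by
  unfold subst
  have := hP.aeval (fun j => lin (fun i => g i j)) (n := 1) (fun j => lin_isHomogeneous _)
  simpa using this

lemma locMap_apply (a : Option k) (t : K) (g : Matrix (Fin n) (Fin n) K)
    (T : MvPolynomial (Fin n) (regRing k K a)) :
    locMap a t g T = MvPolynomial.C t *
      subst g (MvPolynomial.map (algebraMap (regRing k K a) K) T) := rfl

lemma locMap_isHomogeneous {a : Option k} (t : K) (g : Matrix (Fin n) (Fin n) K)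
    {T : MvPolynomial (Fin n) (regRing k K a)} {m : ℕ} (hT : T.IsHomogeneous m) :
    (locMap a t g T).IsHomogeneous m := by
  rw [locMap_apply]
  have h := (MvPolynomial.isHomogeneous_C (Fin n) t).mul
    (subst_isHomogeneous g (hT.map (algebraMap (regRing k K a) K)))
  rwa [zero_add] at h

/-- every form with regular coefficients after the inverse substitution is in the image -/
lemma exists_locMap {a : Option k} {t : K} (ht : t ≠ 0) {g : Matrix (Fin n) (Fin n) K}
    (hg : g.det ≠ 0) {P : MvPolynomial (Fin n) K} {m : ℕ} (hP : P.IsHomogeneous m)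
    (hreg : ∀ s, (MvPolynomial.C t⁻¹ * subst g⁻¹ P).coeff s ∈ regRing k K a) :
    ∃ T : MvPolynomial (Fin n) (regRing k K a), T.IsHomogeneous m ∧ locMap a t g T = P := by
  classical
  obtain ⟨P', hP'⟩ : ∃ P', P' = MvPolynomial.C t⁻¹ * subst g⁻¹ P := ⟨_, rfl⟩
  rw [← hP'] at hreg
  have hhom : P'.IsHomogeneous m := by
    have h := (MvPolynomial.isHomogeneous_C (Fin n) t⁻¹).mul (subst_isHomogeneous g⁻¹ hP)
    rwa [zero_add, ← hP'] at h
  obtain ⟨T, hT⟩ : ∃ T : MvPolynomial (Fin n) (regRing k K a),
      T = ∑ s ∈ P'.support, MvPolynomial.monomial s ⟨P'.coeff s, hreg s⟩ := ⟨_, rfl⟩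
  have hTP : MvPolynomial.map (algebraMap (regRing k K a) K) T = P' := by
    rw [hT, map_sum]
    conv_rhs => rw [P'.as_sum]
    apply Finset.sum_congr rfl
    intro s _
    rw [MvPolynomial.map_monomial]
    rfl
  refine ⟨T, ?_, ?_⟩
  · rw [hT]
    apply MvPolynomial.IsHomogeneous.sum
    intro s hs
    apply MvPolynomial.isHomogeneous_monomial
    have h1 := hhom (MvPolynomial.mem_support_iff.mp hs)
    rw [← h1, Finsupp.degree_eq_weight_one]
    rfl
  · rw [locMap_apply, hTP, hP', map_mul, ← AlgHom.comp_apply, ← subst_mul,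
      Matrix.mul_nonsing_inv _ (isUnit_iff_ne_zero.mpr hg), subst_one, AlgHom.id_apply,
      MvPolynomial.algHom_C, MvPolynomial.algebraMap_eq, ← mul_assoc, ← map_mul,
      mul_inv_cancel₀ ht, map_one, one_mul]

lemma locMap_lin_mul_prod {a : Option k} (t : K) (g : Matrix (Fin n) (Fin n) K) {e : ℕ}
    (v : Fin n → regRing k K a) (y : Fin e → Fin n → regRing k K a) :
    locMap a t g (lin v * ∏ l, lin (y l)) =
      MvPolynomial.C t * (lin (opMap a g v) * ∏ l, lin (opMap a g (y l))) := by
  rw [locMap_apply, map_mul, map_prod, map_mul, map_prod]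
  simp only [map_lin, subst_lin]
  rfl

lemma Jmod_isHomogeneous {e : ℕ} {a : Option k}
    {Λ : Submodule (regRing k K a) (Fin n → regRing k K a)}
    {T : MvPolynomial (Fin n) (regRing k K a)} (hT : T ∈ Jmod e Λ) : T.IsHomogeneous (e + 1) := by
  have h : Jmod e Λ ≤ MvPolynomial.homogeneousSubmodule (Fin n) (regRing k K a) (e + 1) := by
    refine Submodule.span_le.mpr ?_
    rintro _ ⟨v, _, Y, hY, rfl⟩
    rw [SetLike.mem_coe, MvPolynomial.mem_homogeneousSubmodule, add_comm e 1]
    exact (lin_isHomogeneous v).mul hY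
  exact h hT

/-- a form of degree `e + 1` is a sum of products `X_i * Y_i` -/
lemma exists_eq_sum_X_mul {R : Type} [CommRing R] {e : ℕ} {P : MvPolynomial (Fin n) R}
    (hP : P.IsHomogeneous (e + 1)) : ∃ Y : Fin n → MvPolynomial (Fin n) R,
      (∀ i, (Y i).IsHomogeneous e) ∧ P = ∑ i, MvPolynomial.X i * Y i := by
  classical
  have key : ∀ s : Fin n →₀ ℕ, ∃ p : Option (Fin n) × (Fin n →₀ ℕ), s ∈ P.support →
      ∃ i, p.1 = some i ∧ s = Finsupp.single i 1 + p.2 ∧ p.2.degree = e := by
    intro s
    by_cases hs : s ∈ P.support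
    · have h1 : s.degree = e + 1 := by
        have := hP (MvPolynomial.mem_support_iff.mp hs)
        rw [← this, Finsupp.degree_eq_weight_one]
        rfl
      have h2 : s ≠ 0 := by
        rintro rfl
        simp at h1
      obtain ⟨i, hi⟩ := Finsupp.ne_iff.mp h2
      have h3 : Finsupp.single i 1 ≤ s := by
        rw [Finsupp.single_le_iff]
        exact Nat.one_le_iff_ne_zero.mpr hi
      refine ⟨(some i, s - Finsupp.single i 1), fun _ => ⟨i, rfl,
        (add_tsub_cancel_of_le h3).symm, ?_⟩⟩
      have h4 := congrArg Finsupp.degree (add_tsub_cancel_of_le h3)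
      rw [map_add, Finsupp.degree_single] at h4
      dsimp only
      omega
    · exact ⟨(none, 0), fun h => absurd h hs⟩
  choose p hp using key
  refine ⟨fun i => ∑ s ∈ P.support.filter (fun s => (p s).1 = some i),
    MvPolynomial.monomial (p s).2 (P.coeff s), ?_, ?_⟩
  · intro i
    apply MvPolynomial.IsHomogeneous.sum
    intro s hs
    apply MvPolynomial.isHomogeneous_monomial
    obtain ⟨_, _, _, h⟩ := hp s (Finset.mem_filter.mp hs).1
    exact h
  · conv_lhs => rw [P.as_sum]
    have h5 : ∀ s ∈ P.support, MvPolynomial.monomial s (P.coeff s) =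
        ∑ i, if (p s).1 = some i then
          MvPolynomial.X i * MvPolynomial.monomial (p s).2 (P.coeff s) else 0 := by
      intro s hs
      obtain ⟨i, hi, h1, -⟩ := hp s hs
      rw [Finset.sum_eq_single i]
      · rw [if_pos hi, MvPolynomial.X, MvPolynomial.monomial_mul, one_mul, ← h1]
      · intro j _ hj
        rw [if_neg]
        rw [hi]
        intro h
        exact hj (Option.some_injective _ h).symm
      · simp
    rw [Finset.sum_congr rfl h5, Finset.sum_comm]
    apply Finset.sum_congr rfl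
    intro i _
    rw [Finset.mul_sum, Finset.sum_filter]

lemma mem_Jmod_top {e : ℕ} {a : Option k}
    {Λ : Submodule (regRing k K a) (Fin n → regRing k K a)} (hΛ : Λ = ⊤)
    {T : MvPolynomial (Fin n) (regRing k K a)} (hT : T.IsHomogeneous (e + 1)) :
    T ∈ Jmod e Λ := by
  obtain ⟨Y, hY, rfl⟩ := exists_eq_sum_X_mul hT
  apply Submodule.sum_mem
  intro i _
  apply Submodule.subset_span
  refine ⟨Pi.single i 1, hΛ ▸ Submodule.mem_top, Y i, hY i, ?_⟩
  rw [lin_single, map_one, one_mul]

/-- The value of an element of `Jmod Λ` at a point at which `Λ` vanishes. -/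
lemma eval₂_Jmod {e : ℕ} {R : Type} [CommRing R] [Algebra k R] {a : Option k}
    (θ : regRing k K a →ₐ[k] R) (ℓ : Fin n → R)
    {Λ : Submodule (regRing k K a) (Fin n → regRing k K a)} (hΛ : Λ ≤ evalKer θ ℓ)
    {T : MvPolynomial (Fin n) (regRing k K a)} (hT : T ∈ Jmod e Λ) :
    MvPolynomial.eval₂ (θ : regRing k K a →+* R) ℓ T = 0 := by
  induction hT using Submodule.span_induction with
  | mem X hX =>
    obtain ⟨v, hv, Y, -, rfl⟩ := hX
    rw [MvPolynomial.eval₂_mul, eval₂_lin]
    have h1 : ∑ i, ℓ i * (θ : regRing k K a →+* R) (v i) = 0 := hΛ hv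
    rw [h1, zero_mul]
  | zero => rw [MvPolynomial.eval₂_zero]
  | add X Y _ _ hX hY => rw [MvPolynomial.eval₂_add, hX, hY, add_zero]
  | smul c X _ hX => rw [MvPolynomial.smul_eq_C_mul, MvPolynomial.eval₂_mul, hX, mul_zero]

end Pool.Agent.FJ
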