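import Pool.Agent.FJ.Defs

/-!
# The local bound on the values of the multilinear form
-/

set_option linter.unusedSectionVars false

namespace Pool.Agent.FJ

open Pool.Agent.Helper38.Scroll Matrix Module

section

variable {k K : Type} [Field k] [Field K] [Algebra (RatFunc k) K] [Algebra k K]
  [IsScalarTower k (RatFunc k) K] [IsAlgClosed k] [CharZero k] [FiniteDimensional (RatFunc k) K]
  {n : ℕ}

/-- `γ` is the local generator of `det E ⊗ B`, `H₀` a frame of the quotient bundle, `H₁` a frame of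
the image of the condition lattice. -/
theorem theta_local {e r : ℕ} {a : Option k} {g : Matrix (Fin n) (Fin n) K}
    (hg : g.det ≠ 0) {γ : K} (hγ : γ ≠ 0)
    (Λ : Submodule (regRing k K a) (Fin n → regRing k K a))
    (φ : MvPolynomial (Fin n) K →ₗ[K] K)
    (hφ : ∀ v ∈ Λ, ∀ y : Fin e → Fin n → regRing k K a,
      γ * φ (lin (opMap a g v) * ∏ l, lin (opMap a g (y l))) ∈ regRing k K a)
    {A : Matrix (Fin r) (Fin n) K}
    {Θ : MultilinearMap K (fun _ : Fin r ⊕ Fin r × Fin e => Fin r → K) K}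
    (hΘ : ∀ (u : Fin r → Fin n → K) (y : Fin r → Fin e → Fin n → K),
        Θ (Sum.elim (fun i => A *ᵥ u i) (fun p => A *ᵥ y p.1 p.2)) =
          (Matrix.of fun i j => φ (lin (u i) * ∏ l, lin (y j l))).det)
    (halt : ∀ (M : Matrix (Fin r) (Fin r) K) (x : Fin r → Fin r → K)
      (z : Fin r × Fin e → Fin r → K),
        Θ (Sum.elim (fun i => M *ᵥ x i) z) = M.det * Θ (Sum.elim x z))
    {H₀ H₁ : Matrix (Fin r) (Fin r) K} (hH₀ : H₀.det ≠ 0) (hH₁ : H₁.det ≠ 0)
    (hl₀ : lattice a H₀ = LinearMap.range (opMap a (A * g)))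
    (hl₁ : lattice a H₁ = Λ.map (opMap a (A * g)))
    (v : Fin r ⊕ Fin r × Fin e → Fin r → K) (hv : ∀ i, v i ∈ lattice a H₀) :
    ∃ c ∈ regRing k K a, Θ v = (γ⁻¹ ^ r * (H₀.det * H₁.det⁻¹)) * c := by
  have hu : ∀ i : Fin r, ∃ u ∈ Λ, v (Sum.inl i) = (H₀ * H₁⁻¹) *ᵥ (A *ᵥ opMap a g u) := by
    intro i
    have h := hv (Sum.inl i)
    rw [lattice_eq_range] at h
    obtain ⟨c, hc⟩ := h
    have h2 : opMap a H₁ c ∈ lattice a H₁ := by rw [lattice_eq_range]; exact ⟨c, rfl⟩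
    rw [hl₁] at h2
    obtain ⟨u, hu, hu'⟩ := h2
    refine ⟨u, hu, ?_⟩
    have h3 : A *ᵥ opMap a g u = opMap a (A * g) u := by
      rw [opMap_apply, opMap_apply, mulVec_mulVec]
    rw [h3, hu', ← hc, opMap_apply, opMap_apply, mulVec_mulVec, Matrix.mul_assoc,
      Matrix.nonsing_inv_mul _ (isUnit_iff_ne_zero.mpr hH₁), Matrix.mul_one]
  have hy : ∀ p : Fin r × Fin e, ∃ y : Fin n → regRing k K a,
      v (Sum.inr p) = A *ᵥ opMap a g y := by
    intro p
    have h := hv (Sum.inr p)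
    rw [hl₀] at h
    obtain ⟨y, hy⟩ := h
    exact ⟨y, by rw [← hy, opMap_apply, opMap_apply, mulVec_mulVec]⟩
  choose u huΛ hu using hu
  choose y hy using hy
  have hv' : v = Sum.elim (fun i => (H₀ * H₁⁻¹) *ᵥ (A *ᵥ opMap a g (u i)))
      (fun p => A *ᵥ opMap a g (y p)) := by
    funext x
    rcases x with i | p
    · exact hu i
    · exact hy p
  set E : Matrix (Fin r) (Fin r) K :=
    Matrix.of fun i j => φ (lin (opMap a g (u i)) * ∏ l, lin (opMap a g (y (j, l)))) with hE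
  have hent : ∀ i j, (γ • E) i j ∈ regRing k K a := fun i j =>
    hφ (u i) (huΛ i) (fun l => y (j, l))
  have hdet := regRing_prod_mem hent
  rw [Matrix.det_smul, Fintype.card_fin] at hdet
  refine ⟨γ ^ r * E.det, hdet, ?_⟩
  have h1 := hΘ (fun i => opMap a g (u i)) (fun j l => opMap a g (y (j, l)))
  rw [hv', halt, h1, Matrix.det_mul, Matrix.det_nonsing_inv, Ring.inverse_eq_inv', ← hE]
  have h2 : γ⁻¹ ^ r * γ ^ r = 1 := by rw [← mul_pow, inv_mul_cancel₀ hγ, one_pow]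
  calc H₀.det * H₁.det⁻¹ * E.det = (γ⁻¹ ^ r * γ ^ r) * (H₀.det * H₁.det⁻¹ * E.det) := by
        rw [h2, one_mul]
    _ = _ := by ring

end

end Pool.Agent.FJ
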