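import Pool.Agent.FJ.Defs

/-!
# Module MUL: the determinant multilinear form
-/

set_option autoImplicit false
set_option linter.unusedSectionVars false

namespace Pool.Agent.FJ

open Pool.Agent.Helper38.Scroll Matrix Module

section MUL

variable {K : Type} [Field K] {n e r : ℕ}

lemma mul_lin_add (v w : Fin n → K) : lin (v + w) = lin v + lin w := by
  simp only [lin, Pi.add_apply, map_add, add_mul, Finset.sum_add_distrib]

lemma mul_lin_smul (c : K) (v : Fin n → K) : lin (c • v) = c • lin v := by
  simp only [lin, Pi.smul_apply, smul_eq_mul, map_mul, Finset.smul_sum, MvPolynomial.smul_eq_C_mul,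
    mul_assoc]

lemma mul_lin_sub (v w : Fin n → K) : lin (v - w) = lin v - lin w := by
  have h := mul_lin_add (v - w) w
  rw [sub_add_cancel] at h
  rw [h]; ring

lemma mul_lin_hom (v : Fin n → K) : (lin v).IsHomogeneous 1 := by
  unfold lin
  apply MvPolynomial.IsHomogeneous.sum
  intro i _
  have := (MvPolynomial.isHomogeneous_C (Fin n) (v i)).mul (MvPolynomial.isHomogeneous_X K i)
  simpa using this

/-- Only the classes modulo the kernel of `A` matter. -/
lemma mul_congr (φ : MvPolynomial (Fin n) K →ₗ[K] K)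
    {A : Matrix (Fin r) (Fin n) K}
    (hker : ∀ κ : Fin n → K, A *ᵥ κ = 0 → ∀ Y : MvPolynomial (Fin n) K, Y.IsHomogeneous e →
        φ (lin κ * Y) = 0)
    (u u' : Fin n → K) (z z' : Fin e → Fin n → K) (hu : A *ᵥ u = A *ᵥ u')
    (hz : ∀ l, A *ᵥ z l = A *ᵥ z' l) :
    φ (lin u * ∏ l, lin (z l)) = φ (lin u' * ∏ l, lin (z' l)) := by
  have h1 : φ (lin u * ∏ l, lin (z l)) = φ (lin u' * ∏ l, lin (z l)) := by
    have h0 : A *ᵥ (u - u') = 0 := by rw [Matrix.mulVec_sub, hu, sub_self]
    have hY : (∏ l, lin (z l)).IsHomogeneous e := by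
      have := MvPolynomial.IsHomogeneous.prod Finset.univ (fun l => lin (z l)) (fun _ => 1)
        (fun l _ => mul_lin_hom (z l))
      simpa using this
    have h2 := hker _ h0 _ hY
    rw [mul_lin_sub, sub_mul, map_sub, sub_eq_zero] at h2
    exact h2
  rw [h1]
  have h3 : ∀ s : Finset (Fin e), φ (lin u' * ∏ l, lin (s.piecewise z z' l)) =
      φ (lin u' * ∏ l, lin (z' l)) := by
    intro s
    induction s using Finset.induction_on with
    | empty => simp
    | insert l₀ s hl₀ ih =>
      rw [← ih]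
      set f := s.piecewise z z' with hf
      have hins : (insert l₀ s).piecewise z z' = Function.update f l₀ (z l₀) := by
        rw [hf, Finset.piecewise_insert]
      have hfl : f l₀ = z' l₀ := by
        rw [hf]; exact Finset.piecewise_eq_of_notMem s z z' hl₀
      have hprod : ∀ v : Fin n → K, ∏ l, lin (Function.update f l₀ v l) =
          lin v * ∏ l ∈ Finset.univ.erase l₀, lin (f l) := by
        intro v
        rw [← Finset.mul_prod_erase Finset.univ _ (Finset.mem_univ l₀), Function.update_self]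
        congr 1
        apply Finset.prod_congr rfl
        intro l hl
        rw [Function.update_of_ne (Finset.ne_of_mem_erase hl)]
      have hf' : ∏ l, lin (f l) = lin (z' l₀) * ∏ l ∈ Finset.univ.erase l₀, lin (f l) := by
        have := hprod (z' l₀)
        rw [← hfl, Function.update_eq_self] at this
        rw [hfl] at this
        exact this
      rw [hins, hprod, hf']
      have h0 : A *ᵥ (z l₀ - z' l₀) = 0 := by rw [Matrix.mulVec_sub, hz, sub_self]
      have hY : (lin u' * ∏ l ∈ Finset.univ.erase l₀, lin (f l)).IsHomogeneous e := by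
        have h5 := MvPolynomial.IsHomogeneous.prod (Finset.univ.erase l₀) (fun l => lin (f l))
          (fun _ => 1) (fun l _ => mul_lin_hom (f l))
        have h6 := (mul_lin_hom u').mul h5
        have h7 : 1 + ∑ _l ∈ Finset.univ.erase l₀, 1 = e := by
          rw [Finset.sum_const, Finset.card_erase_of_mem (Finset.mem_univ _)]
          have : 0 < e := l₀.pos
          simp
          omega
        rw [h7] at h6
        exact h6
      have h2 := hker _ h0 _ hY
      rw [mul_lin_sub, sub_mul, map_sub, sub_eq_zero] at h2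
      have e1 : ∀ v : Fin n → K, lin u' * (lin v * ∏ l ∈ Finset.univ.erase l₀, lin (f l)) =
          lin v * (lin u' * ∏ l ∈ Finset.univ.erase l₀, lin (f l)) := by
        intro v; ring
      rw [e1, e1]
      exact h2
  have h4 := h3 Finset.univ
  simpa using h4

/-- The matrix. -/
noncomputable def mulMat (φ : MvPolynomial (Fin n) K →ₗ[K] K) (R : Matrix (Fin n) (Fin r) K)
    (x : Fin r ⊕ Fin r × Fin e → Fin r → K) : Matrix (Fin r) (Fin r) K :=
  Matrix.of fun i j => φ (lin (R *ᵥ x (Sum.inl i)) * ∏ l, lin (R *ᵥ x (Sum.inr (j, l))))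

lemma mulMat_inl (φ : MvPolynomial (Fin n) K →ₗ[K] K) (R : Matrix (Fin n) (Fin r) K)
    (x : Fin r ⊕ Fin r × Fin e → Fin r → K) [DecidableEq (Fin r ⊕ Fin r × Fin e)]
    (i : Fin r) (v : Fin r → K) :
    mulMat φ R (Function.update x (Sum.inl i) v) =
      (mulMat φ R x).updateRow i
        (fun j => φ (lin (R *ᵥ v) * ∏ l, lin (R *ᵥ x (Sum.inr (j, l))))) := by
  ext i' j
  by_cases h : i' = i
  · subst h
    simp [mulMat]
  · simp [mulMat, h, Matrix.updateRow_ne]

lemma mulMat_inr (φ : MvPolynomial (Fin n) K →ₗ[K] K) (R : Matrix (Fin n) (Fin r) K)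
    (x : Fin r ⊕ Fin r × Fin e → Fin r → K) [DecidableEq (Fin r ⊕ Fin r × Fin e)]
    (p : Fin r × Fin e) (v : Fin r → K) :
    mulMat φ R (Function.update x (Sum.inr p) v) =
      (mulMat φ R x).updateCol p.1
        (fun i => φ (lin (R *ᵥ x (Sum.inl i)) *
          (lin (R *ᵥ v) * ∏ l ∈ Finset.univ.erase p.2, lin (R *ᵥ x (Sum.inr (p.1, l)))))) := by
  obtain ⟨j₀, l₀⟩ := p
  ext i j
  by_cases h : j = j₀
  · subst h
    have hp : ∏ l, lin (R *ᵥ Function.update x (Sum.inr (j, l₀)) v (Sum.inr (j, l))) =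
        lin (R *ᵥ v) * ∏ l ∈ Finset.univ.erase l₀, lin (R *ᵥ x (Sum.inr (j, l))) := by
      rw [← Finset.mul_prod_erase Finset.univ _ (Finset.mem_univ l₀), Function.update_self]
      have h2 : ∏ l ∈ Finset.univ.erase l₀,
          lin (R *ᵥ Function.update x (Sum.inr (j, l₀)) v (Sum.inr (j, l))) =
          ∏ l ∈ Finset.univ.erase l₀, lin (R *ᵥ x (Sum.inr (j, l))) := by
        refine Finset.prod_congr rfl fun l hl => ?_
        have h1 : (Sum.inr (j, l) : Fin r ⊕ Fin r × Fin e) ≠ Sum.inr (j, l₀) := by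
          intro h'
          exact Finset.ne_of_mem_erase hl (congrArg Prod.snd (Sum.inr.inj h'))
        rw [Function.update_of_ne h1]
      rw [h2]
    have h3 : (Sum.inl i : Fin r ⊕ Fin r × Fin e) ≠ Sum.inr (j, l₀) := by simp
    simp only [mulMat, Matrix.of_apply, Matrix.updateCol_self]
    rw [Function.update_of_ne h3, hp]
  · have hp : ∏ l, lin (R *ᵥ Function.update x (Sum.inr (j₀, l₀)) v (Sum.inr (j, l))) =
        ∏ l, lin (R *ᵥ x (Sum.inr (j, l))) := by
      refine Finset.prod_congr rfl fun l _ => ?_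
      have h1 : (Sum.inr (j, l) : Fin r ⊕ Fin r × Fin e) ≠ Sum.inr (j₀, l₀) := by
        intro h'
        exact h (congrArg Prod.fst (Sum.inr.inj h'))
      rw [Function.update_of_ne h1]
    have h3 : (Sum.inl i : Fin r ⊕ Fin r × Fin e) ≠ Sum.inr (j₀, l₀) := by simp
    simp only [mulMat, Matrix.of_apply, Matrix.updateCol_ne h]
    rw [Function.update_of_ne h3, hp]

/-- The multilinear form. -/
noncomputable def mulTheta (φ : MvPolynomial (Fin n) K →ₗ[K] K) (R : Matrix (Fin n) (Fin r) K) :
    MultilinearMap K (fun _ : Fin r ⊕ Fin r × Fin e => Fin r → K) K where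
  toFun x := (mulMat φ R x).det
  map_update_add' x i v w := by
    rcases i with i | p
    · rw [mulMat_inl, mulMat_inl, mulMat_inl, ← Matrix.det_updateRow_add]
      congr 2
      funext j
      simp only [Pi.add_apply]
      rw [Matrix.mulVec_add, mul_lin_add, add_mul, map_add]
    · rw [mulMat_inr, mulMat_inr, mulMat_inr, ← Matrix.det_updateCol_add]
      congr 2
      funext j
      simp only [Pi.add_apply]
      rw [Matrix.mulVec_add, mul_lin_add, add_mul, mul_add, map_add]
  map_update_smul' x i c v := by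
    rcases i with i | p
    · rw [mulMat_inl, mulMat_inl, smul_eq_mul, ← Matrix.det_updateRow_smul]
      congr 2
      funext j
      simp only [Pi.smul_apply]
      rw [Matrix.mulVec_smul, mul_lin_smul, smul_mul_assoc, map_smul]
    · rw [mulMat_inr, mulMat_inr, smul_eq_mul, ← Matrix.det_updateCol_smul]
      congr 2
      funext j
      simp only [Pi.smul_apply]
      rw [Matrix.mulVec_smul, mul_lin_smul, smul_mul_assoc, mul_smul_comm, map_smul]

lemma mulTheta_apply (φ : MvPolynomial (Fin n) K →ₗ[K] K) (R : Matrix (Fin n) (Fin r) K)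
    (x : Fin r ⊕ Fin r × Fin e → Fin r → K) : mulTheta φ R x = (mulMat φ R x).det := rfl

theorem exists_theta {K : Type} [Field K] {n e r : ℕ} (φ : MvPolynomial (Fin n) K →ₗ[K] K)
    {A : Matrix (Fin r) (Fin n) K} {R : Matrix (Fin n) (Fin r) K} (hAR : A * R = 1)
    (hker : ∀ κ : Fin n → K, A *ᵥ κ = 0 → ∀ Y : MvPolynomial (Fin n) K, Y.IsHomogeneous e →
        φ (lin κ * Y) = 0)
    (hdet : ∃ y : Fin r → Fin e → Fin n → K,
        (Matrix.of fun i j => φ (lin (R *ᵥ Pi.single i 1) * ∏ l, lin (y j l))).det ≠ 0) :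
    ∃ Θ : MultilinearMap K (fun _ : Fin r ⊕ Fin r × Fin e => Fin r → K) K, Θ ≠ 0 ∧
      (∀ (u : Fin r → Fin n → K) (y : Fin r → Fin e → Fin n → K),
        Θ (Sum.elim (fun i => A *ᵥ u i) (fun p => A *ᵥ y p.1 p.2)) =
          (Matrix.of fun i j => φ (lin (u i) * ∏ l, lin (y j l))).det) ∧
      ∀ (M : Matrix (Fin r) (Fin r) K) (x : Fin r → Fin r → K) (z : Fin r × Fin e → Fin r → K),
        Θ (Sum.elim (fun i => M *ᵥ x i) z) = M.det * Θ (Sum.elim x z) := by
  have hA : ∀ v : Fin n → K, A *ᵥ (R *ᵥ (A *ᵥ v)) = A *ᵥ v := by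
    intro v
    rw [Matrix.mulVec_mulVec, hAR, Matrix.one_mulVec]
  have hval : ∀ (u : Fin r → Fin n → K) (y : Fin r → Fin e → Fin n → K),
      mulTheta φ R (Sum.elim (fun i => A *ᵥ u i) (fun p => A *ᵥ y p.1 p.2)) =
        (Matrix.of fun i j => φ (lin (u i) * ∏ l, lin (y j l))).det := by
    intro u y
    rw [mulTheta_apply]
    congr 1
    ext i j
    simp only [mulMat, Matrix.of_apply, Sum.elim_inl, Sum.elim_inr]
    exact mul_congr φ hker _ _ _ _ (hA _) (fun l => hA _)
  refine ⟨mulTheta φ R, ?_, hval, ?_⟩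
  · obtain ⟨y, hy⟩ := hdet
    intro h0
    apply hy
    rw [← hval, h0]
    rfl
  · intro M x z
    rw [mulTheta_apply, mulTheta_apply]
    have key : ∀ x : Fin r → Fin r → K, mulMat φ R (Sum.elim x z) =
        (Matrix.of x) * (Matrix.of fun c j => φ (lin (R *ᵥ Pi.single c 1) *
          ∏ l, lin (R *ᵥ z (j, l)))) := by
      intro x
      ext i j
      simp only [mulMat, Matrix.of_apply, Sum.elim_inl, Sum.elim_inr, Matrix.mul_apply]
      have hx : x i = ∑ c, x i c • (Pi.single c 1 : Fin r → K) := by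
        funext c
        simp [Finset.sum_apply, Pi.single_apply]
      have hlin : lin (R *ᵥ x i) = ∑ c, x i c • lin (R *ᵥ (Pi.single c 1 : Fin r → K)) := by
        conv_lhs => rw [hx]
        have : ∀ s : Finset (Fin r), lin (R *ᵥ (∑ c ∈ s, x i c • (Pi.single c 1 : Fin r → K))) =
            ∑ c ∈ s, x i c • lin (R *ᵥ (Pi.single c 1 : Fin r → K)) := by
          intro s
          induction s using Finset.induction_on with
          | empty => simp [lin]
          | insert c s hc ih =>
            rw [Finset.sum_insert hc, Finset.sum_insert hc, Matrix.mulVec_add, mul_lin_add, ih,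
              Matrix.mulVec_smul, mul_lin_smul]
        exact this Finset.univ
      rw [hlin, Finset.sum_mul, map_sum]
      apply Finset.sum_congr rfl
      intro c _
      rw [smul_mul_assoc, map_smul, smul_eq_mul]
    have hM : (Matrix.of fun i => M *ᵥ x i) = (Matrix.of x) * Mᵀ := by
      ext i j
      simp [Matrix.mul_apply, Matrix.mulVec, dotProduct, mul_comm]
    rw [key, key, hM, Matrix.det_mul, Matrix.det_mul, Matrix.det_mul, Matrix.det_transpose]
    ring

end MUL

end Pool.Agent.FJ
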