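import Pool.Agent.FJ.VAP

/-!
# FJ: sections separate tangent vectors
-/

set_option linter.unusedSectionVars false

namespace Pool.Agent.FJ

open Pool.Agent.Helper38.Scroll Matrix Module

section

variable {k K : Type} [Field k] [Field K] [Algebra (RatFunc k) K] [Algebra k K]
  [IsScalarTower k (RatFunc k) K] {n : ℕ}

lemma vat_fst_pow (x : DualNumber k) (m : ℕ) : (x ^ m).fst = x.fst ^ m :=
  map_pow (TrivSqZeroExt.fstHom k k k) x m

variable [IsAlgClosed k] [CharZero k] [FiniteDimensional (RatFunc k) K]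

theorem sec_separates_tangents {g : Option k → Matrix (Fin n) (Fin n) K}
    (hg : IsBundle g) {e : ℕ} {τ : Option k → K} (hτ : IsTwist τ)
    (hV : Vanish k K n g hg e τ hτ) (a : Option k) (θ : regRing k K a →ₐ[k] DualNumber k)
    (ℓ : Fin n → DualNumber k) (hℓ : ∃ i, (ℓ i).fst ≠ 0)
    (hne : ¬ ((∀ b, (θ b).snd = 0) ∧ ∃ c : k, ∀ i, (ℓ i).snd = c * (ℓ i).fst)) :
    ∃ s : Sec g (e + 1) τ, (s.value θ ℓ).fst = 0 ∧ (s.value θ ℓ).snd ≠ 0 := by
  have hfin : FiniteDimensional k (DualNumber k) :=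
    inferInstanceAs (FiniteDimensional k (k × k))
  have hfr : finrank k (DualNumber k) ≤ 2 := by
    have h1 : finrank k (DualNumber k) = finrank k (k × k) := rfl
    rw [h1, Module.finrank_prod, finrank_self]
  have hu1 : (θ (unifB a)).fst = 0 :=
    hom_unifB ((TrivSqZeroExt.fstHom k k k).comp θ)
  have hu : θ (unifB a) ^ 2 = 0 := by
    rw [pow_two]
    ext
    · rw [TrivSqZeroExt.fst_mul, hu1, mul_zero]; rfl
    · rw [TrivSqZeroExt.snd_mul, hu1]; simp
  obtain ⟨i, hi⟩ := hℓ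
  by_cases hθ : ∀ b, (θ b).snd = 0
  · have hj : ∃ j, (ℓ i).fst * (ℓ j).snd ≠ (ℓ j).fst * (ℓ i).snd := by
      by_contra hcon
      push Not at hcon
      apply hne
      refine ⟨hθ, (ℓ i).snd / (ℓ i).fst, fun j => ?_⟩
      rw [div_mul_eq_mul_div, eq_div_iff hi]
      linear_combination hcon j
    obtain ⟨j, hj⟩ := hj
    set v : Fin n → k := (ℓ i).fst • Pi.single j (1 : k) - (ℓ j).fst • Pi.single i (1 : k)
      with hv
    obtain ⟨s, hs⟩ := vap_section_one hg hτ hV θ ℓ hu hfr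
      (vap_lin_mul_isHomogeneous (cvec a v)
        (vap_X_pow_isHomogeneous (R := regRing k K a) i e))
    have hval : s.value θ ℓ = ((ℓ i).fst • ℓ j - (ℓ j).fst • ℓ i) * ℓ i ^ e := by
      change MvPolynomial.eval₂ (θ : regRing k K a →+* DualNumber k) ℓ (s.loc a) = _
      rw [vap_value_of_sub θ ℓ le_rfl hs, MvPolynomial.eval₂_mul, vap_eval₂_lin, hv, sum_two,
        vap_eval₂_X_pow]
    refine ⟨s, ?_, ?_⟩
    · rw [hval]
      simp only [TrivSqZeroExt.fst_mul, TrivSqZeroExt.fst_sub, TrivSqZeroExt.fst_smul,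
        smul_eq_mul]
      ring
    · rw [hval]
      simp only [TrivSqZeroExt.snd_mul, TrivSqZeroExt.fst_sub,
        TrivSqZeroExt.fst_smul, TrivSqZeroExt.snd_sub, TrivSqZeroExt.snd_smul, smul_eq_mul,
        MulOpposite.smul_eq_mul_unop, MulOpposite.unop_op, vat_fst_pow]
      have h3 : ((ℓ i).fst * (ℓ j).snd - (ℓ j).fst * (ℓ i).snd) * (ℓ i).fst ^ e ≠ 0 :=
        mul_ne_zero (sub_ne_zero.mpr hj) (pow_ne_zero _ hi)
      intro h
      apply h3
      rw [← h]
      ring
  · push Not at hθ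
    obtain ⟨f, hf⟩ := hθ
    obtain ⟨s, hs⟩ := vap_section_one hg hτ hV θ ℓ hu hfr
      (vap_C_mul_isHomogeneous (f - algebraMap k (regRing k K a) (θ f).fst)
        (vap_X_pow_isHomogeneous (R := regRing k K a) i (e + 1)))
    have hval : s.value θ ℓ =
        (θ f - algebraMap k (DualNumber k) (θ f).fst) * ℓ i ^ (e + 1) := by
      change MvPolynomial.eval₂ (θ : regRing k K a →+* DualNumber k) ℓ (s.loc a) = _
      rw [vap_value_of_sub θ ℓ le_rfl hs, MvPolynomial.eval₂_mul, vap_eval₂_X_pow,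
        MvPolynomial.eval₂_C]
      congr 1
      change θ (f - algebraMap k (regRing k K a) (θ f).fst) = _
      rw [map_sub, AlgHom.commutes]
    have h0 : algebraMap k (DualNumber k) (θ f).fst = TrivSqZeroExt.inl (θ f).fst := rfl
    refine ⟨s, ?_, ?_⟩
    · rw [hval, h0]
      simp
    · rw [hval, h0]
      simp only [TrivSqZeroExt.snd_mul, TrivSqZeroExt.fst_sub,
        TrivSqZeroExt.snd_sub, smul_eq_mul, TrivSqZeroExt.fst_inl, TrivSqZeroExt.snd_inl,
        MulOpposite.smul_eq_mul_unop, MulOpposite.unop_op, sub_self, zero_mul, sub_zero,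
        zero_add, vat_fst_pow]
      exact mul_ne_zero hf (pow_ne_zero _ hi)

end

end Pool.Agent.FJ
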