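import Pool.Agent.FJ.REG
import Pool.Agent.FJ.FAC
import Pool.Agent.FJ.MUL
import Pool.Agent.FJ.LOC
import Pool.Agent.FJ.VAT
import Pool.Agent.FJ.LGT
import Pool.Agent.FJ.S.Main

/-!
# The vanishing theorem and the main theorem
-/

set_option linter.unusedSectionVars false

namespace Pool.Agent.FJ

open Pool.Agent.Helper38.Scroll Matrix Module

lemma numerics {n m e r : ℕ} {b dE : ℤ} (hr : 0 < r) (hm : n + 2 ≤ m) (he : m = n + e + 1)
    (hE : (n : ℤ) + 2 ≤ m * dE + n * b)
    (h : ((((n + 2 : ℚ) / r) - b) / m) * (r + r * e) ≤ -(r * (dE + b)) + 2) : False := by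
  have hr' : (0 : ℚ) < r := by exact_mod_cast hr
  have hm0 : (0 : ℚ) < m := by
    have : 0 < m := by omega
    exact_mod_cast this
  have h1 : ((((n + 2 : ℚ) / r) - b) / m) * (r + r * e) * m =
      ((n + 2 : ℚ) - r * b) * (1 + e) := by
    field_simp
  have h2 := mul_le_mul_of_nonneg_right h hm0.le
  rw [h1] at h2
  have hE' : (n : ℚ) + 2 ≤ m * dE + n * b := by exact_mod_cast hE
  have he' : (e : ℚ) + 1 = m - n := by
    have : (m : ℚ) = n + e + 1 := by exact_mod_cast he
    linarith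
  have hm' : (n : ℚ) + 2 ≤ m := by exact_mod_cast hm
  have hr1 : (1 : ℚ) ≤ r := by exact_mod_cast hr
  have hn0 : (0 : ℚ) ≤ n := by positivity
  have h3 : ((n + 2 : ℚ) - r * b) * (1 + e) = ((n + 2 : ℚ) - r * b) * (m - n) := by
    rw [← he']; ring
  rw [h3] at h2
  -- (n+2)(m-n) + r (n b + m dE) ≤ 2 m
  have h4 : ((n : ℚ) + 2) * (m - n) + r * (m * dE + n * b) ≤ 2 * m := by
    nlinarith
  have h5 : r * ((n : ℚ) + 2) ≤ r * (m * dE + n * b) := mul_le_mul_of_nonneg_left hE' hr'.le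
  have h6 : (n : ℚ) * (n + 2) ≤ n * m := mul_le_mul_of_nonneg_left hm' hn0
  nlinarith

variable {k K : Type} [Field k] [Field K] [Algebra (RatFunc k) K] [Algebra k K]
  [IsScalarTower k (RatFunc k) K] [IsAlgClosed k] [CharZero k] [FiniteDimensional (RatFunc k) K]
  {n : ℕ}

/-- quotients of quotients -/
lemma quotient_trans {r s : ℕ} {g : Option k → Matrix (Fin n) (Fin n) K}
    {A : Matrix (Fin r) (Fin n) K} {h : Option k → Matrix (Fin r) (Fin r) K}
    (hh : IsQuotientBundle g A h) {A' : Matrix (Fin s) (Fin r) K}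
    {h' : Option k → Matrix (Fin s) (Fin s) K} (hh' : IsQuotientBundle h A' h') :
    IsQuotientBundle g (A' * A) h' := by
  intro a
  refine ⟨(hh' a).1, ?_⟩
  rw [(hh' a).2, (hh a).2, ← Submodule.map_comp]
  congr 1
  ext v i
  simp [LinearMap.comp_apply]

/-- a quotient of a bundle is a bundle -/
lemma quotient_isBundle {r : ℕ} {g : Option k → Matrix (Fin n) (Fin n) K} (hg : IsBundle g)
    {A : Matrix (Fin r) (Fin n) K} {R : Matrix (Fin n) (Fin r) K} (hAR : A * R = 1)
    {h : Option k → Matrix (Fin r) (Fin r) K} (hh : IsQuotientBundle g A h) :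
    IsBundle h := by
  refine ⟨fun a => (hh a).1, ?_⟩
  refine ((hg.2.union (matrix_cofinite (k := k) A)).union (matrix_cofinite (k := k) R)).subset ?_
  intro a ha
  by_contra hcon
  simp only [Set.mem_union, Set.mem_ofPred_eq, not_or, not_not, not_exists] at hcon
  obtain ⟨⟨h1, h2⟩, h3⟩ := hcon
  apply ha
  rw [(hh a).2, h1]
  ext v
  rw [mem_lattice_one]
  constructor
  · rintro ⟨u, hu, rfl⟩ i
    rw [SetLike.mem_coe, mem_lattice_one] at hu
    change (A *ᵥ u) i ∈ regRing k K a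
    rw [mulVec, dotProduct]
    exact Subalgebra.sum_mem _ fun j _ => Subalgebra.mul_mem _ (h2 i j) (hu j)
  · intro hv
    refine ⟨R *ᵥ v, ?_, ?_⟩
    · rw [SetLike.mem_coe, mem_lattice_one]
      intro i
      rw [mulVec, dotProduct]
      exact Subalgebra.sum_mem _ fun j _ => Subalgebra.mul_mem _ (h3 i j) (hv j)
    · change A *ᵥ (R *ᵥ v) = v
      rw [mulVec_mulVec, hAR, one_mulVec]

lemma mem_regRing_inv_of_lattice_eq {a : Option k} {g : Matrix (Fin n) (Fin n) K}
    (hg : g.det ≠ 0) (h : lattice a g = lattice a 1) :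
    g.det ∈ regRing k K a ∧ (g.det)⁻¹ ∈ regRing k K a := by
  obtain ⟨h1, h2⟩ := integral_of_lattice_eq hg h
  refine ⟨regRing_prod_mem h1, ?_⟩
  have h7 : (g.det)⁻¹ = (g⁻¹).det := by
    rw [Matrix.det_nonsing_inv, Ring.inverse_eq_inv']
  rw [h7]
  exact regRing_prod_mem h2

lemma isTwist_canonical {g : Option k → Matrix (Fin n) (Fin n) K}
    (hg : IsBundle g) {w : Option k → K} (hw : ∀ a, IsCanonicalGenerator a (w a))
    {β : Option k → K} (hβ : IsLineBundle β) : IsTwist fun a => w a * (g a).det * β a := by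
  refine ⟨fun a => mul_ne_zero (mul_ne_zero (hw a).1 (hg.1 a)) (hβ.1 a), ?_⟩
  refine ((hg.2.union hβ.2).union (Set.finite_singleton none)).subset ?_
  intro a ha
  by_contra hcon
  simp only [Set.mem_union, Set.mem_ofPred_eq, not_or, not_not, Set.mem_singleton_iff] at hcon
  obtain ⟨⟨h1, h2⟩, h3⟩ := hcon
  apply ha
  obtain ⟨a, rfl⟩ := Option.ne_none_iff_exists'.mp h3
  have h4 := (mem_regRing_inv_of_lattice_eq (hg.1 _) h1).2
  have h5 := canonical_inv_mem (hw (some a))
  have h6 : (β (some a))⁻¹ ∈ regRing k K (some a) := h2.2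
  change (w (some a) * (g (some a)).det * β (some a))⁻¹ ∈ _
  rw [mul_inv, mul_inv]
  exact Subalgebra.mul_mem _ (Subalgebra.mul_mem _ h5 h4) h6

lemma light_lattice_ext {r : ℕ} (a : Option k) (h : Matrix (Fin r) (Fin r) K) (v : Fin r → K) :
    v ∈ Curve.lattice a h ↔ v ∈ lattice a h := by
  rw [light_lattice]; rfl

lemma light_isBundle' {r : ℕ} {h : Option k → Matrix (Fin r) (Fin r) K} (hh : IsBundle h) :
    Curve.IsBundle h := by
  refine ⟨hh.1, ?_⟩
  have h1 := hh.2
  simp only [ne_eq, light_lattice_eq_iff]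
  exact h1

lemma light_quotient' {r s : ℕ} {g : Option k → Matrix (Fin r) (Fin r) K}
    {A : Matrix (Fin s) (Fin r) K} {h : Option k → Matrix (Fin s) (Fin s) K}
    (hh : Curve.IsQuotientBundle g A h) : IsQuotientBundle g A h := by
  intro a
  refine ⟨(hh a).1, ?_⟩
  have h2 := (hh a).2
  rw [light_lattice, light_lattice] at h2
  apply SetLike.coe_injective
  rw [h2]
  rfl

omit [IsAlgClosed k] [CharZero k] [FiniteDimensional (RatFunc k) K] in
lemma rank_mul_right_inv {r s : ℕ} {A : Matrix (Fin r) (Fin n) K} {R : Matrix (Fin n) (Fin r) K}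
    (hAR : A * R = 1) {A' : Matrix (Fin s) (Fin r) K} (hA' : A'.rank = s) :
    (A' * A).rank = s := by
  apply le_antisymm
  · have := (A' * A).rank_le_height
    simpa using this
  · have h1 := Matrix.rank_mul_le_left (A' * A) R
    rw [Matrix.mul_assoc, hAR, Matrix.mul_one, hA'] at h1
    exact h1

/-- **The vanishing theorem.** -/
theorem vanishing (Q : Conditions k K n) {g : Option k → Matrix (Fin n) (Fin n) K}
    (hg : IsBundle g) {w : Option k → K} (hw : ∀ a, IsCanonicalGenerator a (w a))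
    {β : Option k → K} (hβ : IsLineBundle β)
    {m e : ℕ} (hm : n + 2 ≤ m) (he : m = n + e + 1) (hn : 0 < n)
    (hpos : ∀ s : ℕ, 0 < s → ∀ A : Matrix (Fin s) (Fin n) K, A.rank = s →
      ∀ h : Option k → Matrix (Fin s) (Fin s) K, IsQuotientBundle g A h →
        (n : ℤ) + 2 ≤ m * degree h + s * lineDegree β)
    (hc : ∑ᶠ a, Q.c a ≤ 2) (hτ : IsTwist fun a => w a * (g a).det * β a) (u : Forms K n e) :
    u ∈ (latFam Q hg e hτ).W0 ⊔ (latFam Q hg e hτ).Wi := by
  by_contra hu
  obtain ⟨φ, hφ0, hφ⟩ := exists_phi Q hg e hτ hw hu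
  set γ : Option k → K := fun a => (g a).det * β a with hγ
  have hγ0 : ∀ a, γ a ≠ 0 := fun a => mul_ne_zero (hg.1 a) (hβ.1 a)
  have claim2 : ∀ a, ∀ v ∈ Q.Λ a, ∀ y : Fin e → Fin n → regRing k K a,
      γ a * φ (lin (opMap a (g a) v) * ∏ l, lin (opMap a (g a) (y l))) ∈ regRing k K a := by
    intro a v hv y
    obtain ⟨b, hb, hbe⟩ := hφ a (lin v * ∏ l, lin (y l))
      (Submodule.subset_span ⟨v, hv, _, prod_lin_isHomogeneous y, rfl⟩)
    rw [locMap_lin_mul_prod, ← MvPolynomial.smul_eq_C_mul, map_smul, smul_eq_mul, mul_assoc (w a),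
      mul_assoc] at hbe
    rw [← mul_left_cancel₀ (hw a).1 hbe] at hb
    exact hb
  obtain ⟨r, hr, A, R, hAR, hker, hdet⟩ := exists_factor φ hφ0
  obtain ⟨Θ, hΘ0, hΘ, halt⟩ := exists_theta φ hAR hker hdet
  obtain ⟨H₀, hH₀⟩ := exists_quotientBundle hg hAR
  have hH₁ : ∀ a, ∃ h : Matrix (Fin r) (Fin r) K, h.det ≠ 0 ∧
      lattice a h = (Q.Λ a).map (opMap a (A * g a)) := by
    intro a
    have hR : A * g a * ((g a)⁻¹ * R) = 1 := by
      rw [Matrix.mul_assoc, ← Matrix.mul_assoc (g a),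
        Matrix.mul_nonsing_inv _ (isUnit_iff_ne_zero.mpr (hg.1 a)), Matrix.one_mul, hAR]
    exact exists_frame_opMap a hR (Q.Λ a) (Q.absorb a)
  choose H₁ hH₁d hH₁l using hH₁
  have hl₀ : ∀ a, lattice a (H₀ a) = LinearMap.range (opMap a (A * g a)) := by
    intro a
    rw [(hH₀ a).2, lattice_map]
  have claim5 : ∀ a, ordOver a (H₁ a).det ≤ ordOver a (H₀ a).det + Q.c a := by
    intro a
    apply ordOver_det_le a (hH₀ a).1 (hH₁d a)
    · rw [hH₁l, hl₀ a]
      exact LinearMap.map_le_range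
    · have h2 := (Q.codim a).image ((opMap a (A * g a)).restrictScalars k)
      rw [hH₁l, hl₀ a]
      rw [Set.image_univ] at h2
      exact h2
  have hH₀b : IsBundle H₀ := quotient_isBundle hg hAR hH₀
  set ν : Option k → K := fun a => (γ a)⁻¹ ^ r * ((H₀ a).det * ((H₁ a).det)⁻¹) with hν
  have hν0 : ∀ a, ν a ≠ 0 := fun a => mul_ne_zero (pow_ne_zero _ (inv_ne_zero (hγ0 a)))
    (mul_ne_zero (hH₀ a).1 (inv_ne_zero (hH₁d a)))
  have hfin : {a | ¬ (Curve.Regular a (ν a) ∧ Curve.Regular a (ν a)⁻¹)}.Finite := by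
    refine (((hg.2.union hβ.2).union hH₀b.2).union Q.fin).subset ?_
    intro a ha
    by_contra hcon
    simp only [Set.mem_union, Set.mem_ofPred_eq, not_or, not_not] at hcon
    obtain ⟨⟨⟨h1, h2⟩, h3⟩, h4⟩ := hcon
    apply ha
    have h5 := mem_regRing_inv_of_lattice_eq (hg.1 a) h1
    have h6 := mem_regRing_inv_of_lattice_eq (hH₀ a).1 h3
    have h7 : lattice a (H₁ a) = lattice a 1 := by
      rw [hH₁l, h4, Submodule.map_top, ← hl₀ a, h3]
    have h8 := mem_regRing_inv_of_lattice_eq (hH₁d a) h7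
    have h2' : β a ∈ regRing k K a ∧ (β a)⁻¹ ∈ regRing k K a := h2
    constructor
    · change ν a ∈ regRing k K a
      refine Subalgebra.mul_mem _ (Subalgebra.pow_mem _ ?_ _) (Subalgebra.mul_mem _ h6.1 h8.2)
      rw [hγ]
      simp only [mul_inv]
      exact Subalgebra.mul_mem _ h5.2 h2'.2
    · change (ν a)⁻¹ ∈ regRing k K a
      rw [hν]
      simp only [mul_inv, inv_pow, inv_inv]
      refine Subalgebra.mul_mem _ (Subalgebra.pow_mem _ ?_ _) (Subalgebra.mul_mem _ h6.2 h8.1)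
      exact Subalgebra.mul_mem _ h5.1 h2'.1
  set b : ℤ := lineDegree β with hb
  have hm0 : (0 : ℚ) < m := by
    have : 0 < m := by omega
    exact_mod_cast this
  have hr0 : (0 : ℚ) < r := by exact_mod_cast hr
  have hslope := S.slope_multilinear (ι := Fin r ⊕ Fin r × Fin e) (h := H₀)
    (μ := (((n + 2 : ℚ) / r) - b) / m) ?_ ?_ Θ hΘ0 hν0 hfin ?_
  rotate_left
  · exact light_isBundle' hH₀b
  · intro s hs A' hA' h' hh'
    have hh'' : IsQuotientBundle H₀ A' h' := light_quotient' hh'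
    have h1 := hpos s hs (A' * A) (rank_mul_right_inv hAR hA') h' (quotient_trans hH₀ hh'')
    rw [light_degree]
    have hsr : s ≤ r := by
      have := A'.rank_le_width
      omega
    have h2 : (n : ℚ) + 2 ≤ m * degree h' + s * b := by exact_mod_cast h1
    have h3 : ((n : ℚ) + 2) / r * s ≤ n + 2 := by
      rw [div_mul_eq_mul_div, div_le_iff₀ hr0]
      have : (s : ℚ) ≤ r := by exact_mod_cast hsr
      have h0 : (0 : ℚ) ≤ n + 2 := by positivity
      exact mul_le_mul_of_nonneg_left this h0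
    rw [div_mul_eq_mul_div, div_le_iff₀ hm0]
    nlinarith
  · intro a v hv
    have hv' : ∀ i, v i ∈ lattice a (H₀ a) := by
      intro i
      have := hv i
      rw [light_lattice] at this
      exact this
    obtain ⟨c, hc1, hc2⟩ := theta_local (hg.1 a) (hγ0 a) (Q.Λ a) φ (claim2 a) hΘ halt
      (hH₀ a).1 (hH₁d a) (hl₀ a) (hH₁l a) v hv'
    exact ⟨c, hc1, hc2⟩
  -- the sum
  have hE := hpos n hn 1 (by rw [Matrix.rank_one, Fintype.card_fin]) g (isQuotientBundle_self hg)
  have hcard : Fintype.card (Fin r ⊕ Fin r × Fin e) = r + r * e := by simp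
  rw [hcard] at hslope
  have hfg : {a | ordOver a (g a).det ≠ 0}.Finite :=
    quotient_support_finite hg (by rw [Matrix.mul_one]) (isQuotientBundle_self hg)
  have hf0 : {a | ordOver a (H₀ a).det ≠ 0}.Finite := quotient_support_finite hg hAR hH₀
  have hfβ : {a | ordOver a (β a) ≠ 0}.Finite := by
    refine hβ.2.subset ?_
    intro a ha hcon
    exact ha (ordOver_unit (hβ.1 a) hcon.1 hcon.2)
  have hfν : {a | ordOver a (ν a) ≠ 0}.Finite := by
    refine hfin.subset ?_
    intro a ha hcon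
    exact ha (ordOver_unit (hν0 a) hcon.1 hcon.2)
  set F := (((hfg.union hfβ).union hfν).union Q.cfin).toFinset with hF
  have hmem : ∀ a, a ∈ F ↔ (((ordOver a (g a).det ≠ 0 ∨ ordOver a (β a) ≠ 0) ∨
      ordOver a (ν a) ≠ 0) ∨ Q.c a ≠ 0) := by
    intro a
    rw [hF, Set.Finite.mem_toFinset]
    rfl
  have e1 : degree g = -∑ a ∈ F, ordOver a (g a).det := by
    rw [degree, finsum_eq_sum_of_support_subset]
    intro a ha
    exact Finset.mem_coe.mpr ((hmem a).mpr (Or.inl (Or.inl (Or.inl ha))))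
  have e2 : b = -∑ a ∈ F, ordOver a (β a) := by
    rw [hb, lineDegree]
    simp only [light_ordOver]
    rw [finsum_eq_sum_of_support_subset]
    intro a ha
    exact Finset.mem_coe.mpr ((hmem a).mpr (Or.inl (Or.inl (Or.inr ha))))
  have e3 : ∑ᶠ a, Curve.ordOver a (ν a) = ∑ a ∈ F, ordOver a (ν a) := by
    simp only [light_ordOver]
    rw [finsum_eq_sum_of_support_subset]
    intro a ha
    exact Finset.mem_coe.mpr ((hmem a).mpr (Or.inl (Or.inr ha)))
  have e4 : ∑ᶠ a, Q.c a = ∑ a ∈ F, Q.c a := by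
    rw [finsum_eq_sum_of_support_subset]
    intro a ha
    exact Finset.mem_coe.mpr ((hmem a).mpr (Or.inr ha))
  rw [e4] at hc
  have hc' : (∑ a ∈ F, (Q.c a : ℤ)) ≤ 2 := by exact_mod_cast hc
  have claim6 : ∀ a, -(r * (ordOver a (g a).det + ordOver a (β a)) + Q.c a) ≤
      ordOver a (ν a) := by
    intro a
    have h1 : ordOver a (ν a) = -(r * (ordOver a (g a).det + ordOver a (β a))) +
        (ordOver a (H₀ a).det - ordOver a (H₁ a).det) := by
      rw [hν]
      simp only
      rw [ordOver_mul a (pow_ne_zero _ (inv_ne_zero (hγ0 a)))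
        (mul_ne_zero (hH₀ a).1 (inv_ne_zero (hH₁d a))), ordOver_pow a (inv_ne_zero (hγ0 a)),
        ordOver_inv a (hγ0 a), ordOver_mul a (hH₀ a).1 (inv_ne_zero (hH₁d a)),
        ordOver_inv a (hH₁d a), hγ]
      simp only
      rw [ordOver_mul a (hg.1 a) (hβ.1 a)]
      ring
    have h2 := claim5 a
    rw [h1]
    linarith
  have h1 : -(r * (∑ a ∈ F, ordOver a (g a).det + ∑ a ∈ F, ordOver a (β a)) +
      ∑ a ∈ F, (Q.c a : ℤ)) ≤ ∑ a ∈ F, ordOver a (ν a) := by
    rw [← Finset.sum_add_distrib, Finset.mul_sum, ← Finset.sum_add_distrib,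
      ← Finset.sum_neg_distrib]
    exact Finset.sum_le_sum fun a _ => claim6 a
  have h2 : -∑ a ∈ F, ordOver a (ν a) ≤ -(r * (degree g + b)) + 2 := by
    rw [e1, e2]
    linarith
  have h3 : ((-∑ᶠ a, Curve.ordOver a (ν a) : ℤ) : ℚ) ≤ -(r * (degree g + b)) + 2 := by
    rw [e3]
    exact_mod_cast h2
  refine numerics (n := n) (m := m) (e := e) (r := r) (b := b) (dE := degree g) hr hm he hE ?_
  push_cast at hslope
  exact hslope.trans (by push_cast at h3; exact h3)

/-- **The main theorem.** -/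
theorem main {g : Option k → Matrix (Fin n) (Fin n) K} (hg : Curve.IsBundle g)
    {m : Fin (n + 2) → ℕ} {β : Fin (n + 2) → Option k → K} (hβ : ∀ i, IsLineBundle (β i))
    (hA : ∀ i, IsPositive g (m i) (β i)) {w : Option k → K}
    (hw : ∀ a, Curve.IsCanonicalGenerator a (w a)) :
    IsVeryAmple g (∑ i, m i - n) (fun a => w a * (g a).det * ∏ i, β i a) := by
  obtain ⟨hB, hm, hpos⟩ := positive_sum hβ hA
  have hg' : IsBundle g := light_isBundle hg
  have hw' : ∀ a, IsCanonicalGenerator a (w a) := fun a => light_canonical_iff.mp (hw a)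
  have hτ := isTwist_canonical hg' hw' hB
  rcases Nat.eq_zero_or_pos n with hn | hn
  · subst hn
    refine light_veryAmple ?_ ?_ ?_
    · intro p x
      exact absurd (Subsingleton.elim _ _) x.rep_nonzero
    · intro p p' x x' _
      exact absurd (Subsingleton.elim _ _) x.rep_nonzero
    · rintro a θ ℓ ⟨i, _⟩ _
      exact i.elim0
  · obtain ⟨e, he⟩ : ∃ e, ∑ i, m i = n + e + 1 := ⟨∑ i, m i - n - 1, by omega⟩
    have hd : ∑ i, m i - n = e + 1 := by omega
    rw [hd]
    have hV : Vanish k K n g hg' e _ hτ := by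
      intro Q hc u
      refine vanishing Q hg' hw' hB hm he hn ?_ hc hτ u
      intro s hs A hrk h hh
      have := hpos s hs A hrk h hh
      push_cast at this ⊢
      exact this
    exact light_veryAmple (sec_nonvanishing hg' hτ hV) (sec_separates_points hg' hτ hV)
      (sec_separates_tangents hg' hτ hV)

end Pool.Agent.FJ
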