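import Pool.Agent.FJ.LAT

/-!
# The functional given by Serre duality
-/

set_option linter.unusedSectionVars false

namespace Pool.Agent.FJ

open Pool.Agent.Helper38.Scroll Matrix Module

lemma reg_exists_repr {F K V : Type} [Field F] [Field K] [Algebra F K] [FiniteDimensional F K]
    [Algebra.IsSeparable F K] [AddCommGroup V] [Module K V] [Module F V] [IsScalarTower F K V]
    (l : V →ₗ[F] F) : ∃ φ : V →ₗ[K] K, ∀ X, l X = Algebra.trace F K (φ X) := by
  classical
  let b := Basis.ofVectorSpace K V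
  have h1 : ∀ i, ∃ s : K, ∀ c : K, l (c • b i) = Algebra.trace F K (s * c) := by
    intro i
    obtain ⟨s, hs⟩ := exists_trace_repr
      (l ∘ₗ ((LinearMap.toSpanSingleton K V (b i)).restrictScalars F))
    exact ⟨s, fun c => by rw [← hs c]; rfl⟩
  choose s hs using h1
  refine ⟨b.constr K s, fun X => ?_⟩
  have h2 : X = (b.repr X).sum fun i c => c • b i := by
    conv_lhs => rw [← b.linearCombination_repr X]
    rfl
  have h3 : b.constr K s X = (b.repr X).sum fun i c => c * s i := by
    rw [Basis.constr_apply]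
    rfl
  rw [h3]
  conv_lhs => rw [h2]
  rw [Finsupp.sum, Finsupp.sum, map_sum, map_sum]
  refine Finset.sum_congr rfl fun i _ => ?_
  rw [hs, mul_comm]

section

variable {k K : Type} [Field k] [Field K] [Algebra (RatFunc k) K] [Algebra k K]
  [IsScalarTower k (RatFunc k) K] [IsAlgClosed k] [CharZero k] [FiniteDimensional (RatFunc k) K]
  {n : ℕ}

/-- If the first cohomology does not vanish, there is a `K`-linear functional with values in the
canonical bundle. -/
theorem exists_phi (Q : Conditions k K n) {g : Option k → Matrix (Fin n) (Fin n) K}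
    (hg : IsBundle g) (e : ℕ) {τ : Option k → K} (hτ : IsTwist τ) {w : Option k → K}
    (hw : ∀ a, IsCanonicalGenerator a (w a))
    {u : Forms K n e} (hu : u ∉ (latFam Q hg e hτ).W0 ⊔ (latFam Q hg e hτ).Wi) :
    ∃ φ : MvPolynomial (Fin n) K →ₗ[K] K,
      (∃ P : MvPolynomial (Fin n) K, P.IsHomogeneous (e + 1) ∧ φ P ≠ 0) ∧
      ∀ a, ∀ T ∈ Jmod e (Q.Λ a), ∃ b ∈ regRing k K a, φ (locMap a (τ a) (g a) T) = w a * b := by
  obtain ⟨l, hl0, hlf, hli⟩ := (latFam Q hg e hτ).exists_functional ⟨u, hu⟩
  obtain ⟨φ₀, hφ₀⟩ := reg_exists_repr (K := K) l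
  let π : MvPolynomial (Fin n) K →ₗ[K] Forms K n e :=
    LinearMap.codRestrict _ (MvPolynomial.homogeneousComponent (e + 1)) fun P =>
      (MvPolynomial.mem_homogeneousSubmodule _ _).2
        (MvPolynomial.homogeneousComponent_isHomogeneous _ _)
  have hπ : ∀ (P : MvPolynomial (Fin n) K) (hP : P.IsHomogeneous (e + 1)),
      π P = ⟨P, (MvPolynomial.mem_homogeneousSubmodule _ _).2 hP⟩ := fun P hP => by
    apply Subtype.ext
    show MvPolynomial.homogeneousComponent (e + 1) P = P
    rw [MvPolynomial.homogeneousComponent_of_mem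
      ((MvPolynomial.mem_homogeneousSubmodule _ _).2 hP), if_pos rfl]
  refine ⟨φ₀ ∘ₗ π, ?_, ?_⟩
  · by_contra hcon
    push Not at hcon
    apply hl0
    ext1 X
    have h1 := hcon X.1 ((MvPolynomial.mem_homogeneousSubmodule _ _).1 X.2)
    rw [LinearMap.comp_apply, hπ _ ((MvPolynomial.mem_homogeneousSubmodule _ _).1 X.2)] at h1
    rw [hφ₀, h1, map_zero, LinearMap.zero_apply]
  · intro a T hT
    have hTh : (locMap a (τ a) (g a) T).IsHomogeneous (e + 1) :=
      locMap_isHomogeneous _ _ (Jmod_isHomogeneous hT)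
    rw [LinearMap.comp_apply, hπ _ hTh]
    set X : Forms K n e := ⟨locMap a (τ a) (g a) T,
      (MvPolynomial.mem_homogeneousSubmodule _ _).2 hTh⟩ with hX
    apply ((hw a).2 (φ₀ X)).mp
    intro b hb
    have hbX : b • X ∈ (latFam Q hg e hτ).W a := by
      show b • X ∈ Wlat Q g e (fun a => τ a) a
      refine ⟨(⟨b, hb⟩ : regRing k K a) • T, Submodule.smul_mem _ _ hT, ?_⟩
      rw [map_smul]
      rfl
    have h1 : Algebra.trace (RatFunc k) K (φ₀ X * b) = l (b • X) := by
      rw [hφ₀, map_smul, smul_eq_mul, mul_comm]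
    rw [h1]
    cases a with
    | none => exact X_sq_mul_mem (hli _ hbX)
    | some a =>
      change 1 * _ ∈ _
      rw [one_mul]
      exact hlf a _ hbX

end

end Pool.Agent.FJ
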