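import Pool.Agent.FJ.LAT

/-!
# FJ: global sections with prescribed local behaviour
-/

set_option linter.unusedSectionVars false

namespace Pool.Agent.FJ

open Pool.Agent.Helper38.Scroll Matrix Module

section

variable {k K : Type} [Field k] [Field K] [Algebra (RatFunc k) K] [Algebra k K]
  [IsScalarTower k (RatFunc k) K] {n : ℕ}

lemma sec_mem_Wlat {Q : Conditions k K n} {g : Option k → Matrix (Fin n) (Fin n) K}
    {e : ℕ} {τ : Option k → K} {a : Option k} {u : Forms K n e} :
    u ∈ Wlat Q g e τ a ↔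
      ∃ T ∈ Jmod e (Q.Λ a), locMap a (τ a) (g a) T = (u : MvPolynomial (Fin n) K) := Iff.rfl

variable [IsAlgClosed k] [CharZero k] [FiniteDimensional (RatFunc k) K]

theorem exists_section (Q : Conditions k K n) {g : Option k → Matrix (Fin n) (Fin n) K}
    (hg : IsBundle g) {e : ℕ} {τ : Option k → K} (hτ : IsTwist τ)
    (hvan : ∀ u : Forms K n e, u ∈ (latFam Q hg e hτ).W0 ⊔ (latFam Q hg e hτ).Wi)
    (a : Option k) {T : MvPolynomial (Fin n) (regRing k K a)} (hT : T.IsHomogeneous (e + 1)) :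
    ∃ s : Sec g (e + 1) τ, s.loc a - T ∈ Jmod e (Q.Λ a) ∧
      ∀ b, b ≠ a → s.loc b ∈ Jmod e (Q.Λ b) := by
  classical
  obtain ⟨s, hsa, hsb⟩ := (latFam Q hg e hτ).approx hvan a
    ⟨locMap a (τ a) (g a) T, locMap_isHomogeneous _ _ hT⟩
  obtain ⟨Ja, hJa, hJa'⟩ := sec_mem_Wlat.mp hsa
  have hsb' : ∀ b, b ≠ a → ∃ J ∈ Jmod e (Q.Λ b),
      locMap b (τ b) (g b) J = (s : MvPolynomial (Fin n) K) :=
    fun b hb => sec_mem_Wlat.mp (hsb b hb)
  choose! J hJ hJ' using hsb'
  have hJa'' : locMap a (τ a) (g a) Ja =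
      (s : MvPolynomial (Fin n) K) - locMap a (τ a) (g a) T := hJa'
  let t : ∀ b, MvPolynomial (Fin n) (regRing k K b) := Function.update J a (T + Ja)
  have hta : t a = T + Ja := Function.update_self _ _ _
  have htb : ∀ b, b ≠ a → t b = J b := fun b hb => Function.update_of_ne hb _ _
  refine ⟨⟨(s : MvPolynomial (Fin n) K), t, ?_, ?_⟩, ?_, ?_⟩
  · intro b
    by_cases hb : b = a
    · subst hb
      rw [hta]
      exact hT.add (Jmod_isHomogeneous hJa)
    · rw [htb b hb]
      exact Jmod_isHomogeneous (hJ b hb)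
  · intro b
    by_cases hb : b = a
    · subst hb
      rw [hta, map_add, hJa'']
      abel
    · rw [htb b hb]
      exact (hJ' b hb).symm
  · change t a - T ∈ _
    have h1 : t a - T = Ja := by rw [hta]; ring
    rw [h1]
    exact hJa
  · intro b hb
    change t b ∈ _
    rw [htb b hb]
    exact hJ b hb

end

end Pool.Agent.FJ
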