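import Pool.Agent.FJ.SEC

/-!
# FJ: sections separate points
-/

set_option linter.unusedSectionVars false

namespace Pool.Agent.FJ

open Pool.Agent.Helper38.Scroll Matrix Module

section

variable {k K : Type} [Field k] [Field K] [Algebra (RatFunc k) K] [Algebra k K]
  [IsScalarTower k (RatFunc k) K] {n : ℕ}

lemma vap_value_of_sub {R : Type} [CommRing R] [Algebra k R] {a : Option k} {e : ℕ}
    (θ : regRing k K a →ₐ[k] R) (ℓ : Fin n → R)
    {Λ : Submodule (regRing k K a) (Fin n → regRing k K a)} (hΛ : Λ ≤ evalKer θ ℓ)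
    {S T : MvPolynomial (Fin n) (regRing k K a)} (h : S - T ∈ Jmod e Λ) :
    MvPolynomial.eval₂ (θ : regRing k K a →+* R) ℓ S =
      MvPolynomial.eval₂ (θ : regRing k K a →+* R) ℓ T := by
  have h1 := eval₂_Jmod θ ℓ hΛ h
  have h2 : S = T + (S - T) := by ring
  rw [h2, MvPolynomial.eval₂_add, h1, add_zero]

lemma vap_eval₂_lin {R : Type} [CommRing R] [Algebra k R] {a : Option k}
    (θ : regRing k K a →ₐ[k] R) (ℓ : Fin n → R) (e : Fin n → k) :
    MvPolynomial.eval₂ (θ : regRing k K a →+* R) ℓ (lin (cvec a e)) = ∑ i, e i • ℓ i := by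
  rw [eval₂_lin]
  exact sum_cvec θ ℓ e

lemma vap_eval₂_X_pow {R : Type} [CommRing R] [Algebra k R] {a : Option k}
    (θ : regRing k K a →ₐ[k] R) (ℓ : Fin n → R) (i : Fin n) (m : ℕ) :
    MvPolynomial.eval₂ (θ : regRing k K a →+* R) ℓ (MvPolynomial.X i ^ m) = ℓ i ^ m := by
  rw [MvPolynomial.eval₂_pow, MvPolynomial.eval₂_X]

lemma vap_X_pow_isHomogeneous {R : Type} [CommRing R] (i : Fin n) (m : ℕ) :
    (MvPolynomial.X i ^ m : MvPolynomial (Fin n) R).IsHomogeneous m := by
  have h := (MvPolynomial.isHomogeneous_X R i).pow m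
  rwa [one_mul] at h

lemma vap_C_mul_isHomogeneous {R : Type} [CommRing R] (c : R) {P : MvPolynomial (Fin n) R}
    {m : ℕ} (hP : P.IsHomogeneous m) : (MvPolynomial.C c * P).IsHomogeneous m := by
  have h := (MvPolynomial.isHomogeneous_C (Fin n) c).mul hP
  rwa [zero_add] at h

lemma vap_lin_mul_isHomogeneous {R : Type} [CommRing R] (v : Fin n → R)
    {P : MvPolynomial (Fin n) R} {m : ℕ} (hP : P.IsHomogeneous m) :
    (lin v * P).IsHomogeneous (m + 1) := by
  have h := (lin_isHomogeneous v).mul hP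
  rwa [add_comm] at h

variable [IsAlgClosed k] [CharZero k] [FiniteDimensional (RatFunc k) K]

variable (k K n) in
/-- The vanishing hypothesis: for all conditions of total length at most two. -/
def Vanish (g : Option k → Matrix (Fin n) (Fin n) K) (hg : IsBundle g) (e : ℕ)
    (τ : Option k → K) (hτ : IsTwist τ) : Prop :=
  ∀ Q : Conditions k K n, ∑ᶠ a, Q.c a ≤ 2 → ∀ u : Forms K n e,
    u ∈ (latFam Q hg e hτ).W0 ⊔ (latFam Q hg e hτ).Wi

/-- One `R`-valued point: sections with a prescribed leading term. -/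
lemma vap_section_one {g : Option k → Matrix (Fin n) (Fin n) K}
    (hg : IsBundle g) {e : ℕ} {τ : Option k → K} (hτ : IsTwist τ)
    (hV : Vanish k K n g hg e τ hτ)
    {R : Type} [CommRing R] [Algebra k R] [FiniteDimensional k R] {a : Option k}
    (θ : regRing k K a →ₐ[k] R) (ℓ : Fin n → R) {m : ℕ} (hm : θ (unifB a) ^ m = 0)
    (hc : finrank k R ≤ 2) {T : MvPolynomial (Fin n) (regRing k K a)}
    (hT : T.IsHomogeneous (e + 1)) :
    ∃ s : Sec g (e + 1) τ, s.loc a - T ∈ Jmod e (evalKer θ ℓ) := by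
  obtain ⟨s, hs, -⟩ := exists_section (condAt θ ℓ (Conditions.top k K n) m 2 hm hc) hg hτ
    (hV _ (condAt_top_sum θ ℓ hm hc).le) a hT
  rw [condAt_Λ] at hs
  exact ⟨s, hs⟩

/-- Two points in different fibres over the line. -/
lemma vap_section_two {g : Option k → Matrix (Fin n) (Fin n) K}
    (hg : IsBundle g) {e : ℕ} {τ : Option k → K} (hτ : IsTwist τ)
    (hV : Vanish k K n g hg e τ hτ)
    {a b : Option k} (hab : b ≠ a) (χ : regRing k K a →ₐ[k] k) (ℓ : Fin n → k)
    (χ' : regRing k K b →ₐ[k] k) (ℓ' : Fin n → k)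
    {T : MvPolynomial (Fin n) (regRing k K b)} (hT : T.IsHomogeneous (e + 1)) :
    ∃ s : Sec g (e + 1) τ, s.loc a ∈ Jmod e (evalKer χ ℓ) ∧
      s.loc b - T ∈ Jmod e (evalKer χ' ℓ') := by
  classical
  have h1 : finrank k k ≤ 1 := (finrank_self k).le
  have hu : χ (unifB a) ^ 1 = 0 := by rw [hom_unifB, pow_one]
  have hu' : χ' (unifB b) ^ 1 = 0 := by rw [hom_unifB, pow_one]
  set Q := condAt χ' ℓ' (condAt χ ℓ (Conditions.top k K n) 1 1 hu h1) 1 1 hu' h1 with hQ
  have hsum : ∑ᶠ x, Q.c x ≤ 2 := by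
    have h2 : ∑ᶠ x, Q.c x = ∑ x ∈ {a, b}, Q.c x := by
      apply finsum_eq_sum_of_support_subset
      intro x hx
      by_contra hcon
      simp only [Finset.coe_insert, Finset.coe_singleton, Set.mem_insert_iff,
        Set.mem_singleton_iff, not_or] at hcon
      apply hx
      rw [hQ, condAt_c_ne _ _ _ _ _ hcon.2, condAt_c_ne _ _ _ _ _ hcon.1]
      rfl
    rw [h2, Finset.sum_pair hab.symm, hQ, condAt_c, condAt_c_ne _ _ _ _ _ hab.symm, condAt_c]
  obtain ⟨s, hs, hs'⟩ := exists_section Q hg hτ (hV Q hsum) b hT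
  refine ⟨s, ?_, ?_⟩
  · have h2 := hs' a hab.symm
    rw [hQ, condAt_Λ_ne _ _ _ _ _ hab.symm, condAt_Λ] at h2
    exact h2
  · rw [hQ, condAt_Λ] at hs
    exact hs

theorem sec_nonvanishing {g : Option k → Matrix (Fin n) (Fin n) K}
    (hg : IsBundle g) {e : ℕ} {τ : Option k → K} (hτ : IsTwist τ)
    (hV : Vanish k K n g hg e τ hτ) (p : CurvePoint k K) (x : Projectivization k (Fin n → k)) :
    ∃ s : Sec g (e + 1) τ, s.value p.2 x.rep ≠ 0 := by
  obtain ⟨a, χ⟩ := p
  obtain ⟨i, hi⟩ := exists_coord_ne x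
  have hu : χ (unifB a) ^ 1 = 0 := by rw [hom_unifB, pow_one]
  obtain ⟨s, hs⟩ := vap_section_one hg hτ hV χ x.rep hu
    (by rw [finrank_self]; norm_num)
    (vap_X_pow_isHomogeneous (R := regRing k K a) i (e + 1))
  refine ⟨s, ?_⟩
  change MvPolynomial.eval₂ (χ : regRing k K a →+* k) x.rep (s.loc a) ≠ 0
  rw [vap_value_of_sub χ x.rep le_rfl hs, vap_eval₂_X_pow]
  exact pow_ne_zero _ hi

theorem sec_separates_points {g : Option k → Matrix (Fin n) (Fin n) K}
    (hg : IsBundle g) {e : ℕ} {τ : Option k → K} (hτ : IsTwist τ)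
    (hV : Vanish k K n g hg e τ hτ) (p p' : CurvePoint k K)
    (x x' : Projectivization k (Fin n → k)) (hne : (p, x) ≠ (p', x')) :
    ∃ s : Sec g (e + 1) τ, s.value p.2 x.rep = 0 ∧ s.value p'.2 x'.rep ≠ 0 := by
  obtain ⟨a, χ⟩ := p
  obtain ⟨b, χ'⟩ := p'
  by_cases hab : b = a
  · subst hab
    set θ : regRing k K b →ₐ[k] (k × k) := χ.prod χ' with hθ
    set ℓ : Fin n → k × k := fun i => (x.rep i, x'.rep i) with hℓ
    have hu : θ (unifB b) ^ 1 = 0 := by
      rw [pow_one, hθ, AlgHom.prod_apply, hom_unifB, hom_unifB]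
      rfl
    have hle : evalKer θ ℓ ≤ evalKer χ x.rep := by
      intro v hv
      rw [mem_evalKer] at hv ⊢
      have := congrArg Prod.fst hv
      rw [Prod.fst_sum] at this
      exact this
    have hle' : evalKer θ ℓ ≤ evalKer χ' x'.rep := by
      intro v hv
      rw [mem_evalKer] at hv ⊢
      have := congrArg Prod.snd hv
      rw [Prod.snd_sum] at this
      exact this
    have hfr : finrank k (k × k) ≤ 2 := by
      rw [Module.finrank_prod, finrank_self]
    by_cases hχ : χ = χ'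
    · subst hχ
      have hx : x ≠ x' := by
        rintro rfl
        exact hne rfl
      obtain ⟨i, hi⟩ := exists_coord_ne x
      have hj : ∃ j, x.rep i * x'.rep j ≠ x.rep j * x'.rep i := by
        by_contra hcon
        push Not at hcon
        apply hx
        rw [← x.mk_rep, ← x'.mk_rep]
        rw [Projectivization.mk_eq_mk_iff']
        have hne' : x'.rep i ≠ 0 := by
          intro h0
          apply x'.rep_nonzero
          funext j
          have h1 := hcon j
          rw [h0, mul_zero] at h1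
          exact (mul_eq_zero.mp h1).resolve_left hi
        refine ⟨x.rep i / x'.rep i, ?_⟩
        funext j
        rw [Pi.smul_apply, smul_eq_mul, div_mul_eq_mul_div, hcon j, mul_div_assoc,
          div_self hne', mul_one]
      obtain ⟨j, hj⟩ := hj
      obtain ⟨i', hi'⟩ := exists_coord_ne x'
      obtain ⟨s, hs⟩ := vap_section_one hg hτ hV θ ℓ hu hfr
        (vap_lin_mul_isHomogeneous
          (cvec b (x.rep i • Pi.single j (1 : k) - x.rep j • Pi.single i (1 : k)))
          (vap_X_pow_isHomogeneous (R := regRing k K b) i' e))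
      refine ⟨s, ?_, ?_⟩
      · change MvPolynomial.eval₂ (χ : regRing k K b →+* k) x.rep (s.loc b) = 0
        rw [vap_value_of_sub χ x.rep hle hs, MvPolynomial.eval₂_mul, vap_eval₂_lin, sum_two,
          vap_eval₂_X_pow]
        simp only [smul_eq_mul]
        ring
      · change MvPolynomial.eval₂ (χ : regRing k K b →+* k) x'.rep (s.loc b) ≠ 0
        rw [vap_value_of_sub χ x'.rep hle' hs, MvPolynomial.eval₂_mul, vap_eval₂_lin, sum_two,
          vap_eval₂_X_pow]
        simp only [smul_eq_mul]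
        exact mul_ne_zero (sub_ne_zero.mpr hj) (pow_ne_zero _ hi')
    · obtain ⟨f, hf⟩ : ∃ f, χ f ≠ χ' f := by
        by_contra hcon
        push Not at hcon
        exact hχ (AlgHom.ext hcon)
      obtain ⟨i, hi⟩ := exists_coord_ne x'
      obtain ⟨s, hs⟩ := vap_section_one hg hτ hV θ ℓ hu hfr
        (vap_C_mul_isHomogeneous (f - algebraMap k (regRing k K b) (χ f))
          (vap_X_pow_isHomogeneous (R := regRing k K b) i (e + 1)))
      have hval : ∀ (ψ : regRing k K b →ₐ[k] k) (l : Fin n → k),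
          MvPolynomial.eval₂ (ψ : regRing k K b →+* k) l
            (MvPolynomial.C (f - algebraMap k (regRing k K b) (χ f)) *
              MvPolynomial.X i ^ (e + 1)) = (ψ f - χ f) * l i ^ (e + 1) := by
        intro ψ l
        rw [MvPolynomial.eval₂_mul, vap_eval₂_X_pow, MvPolynomial.eval₂_C]
        congr 1
        change ψ (f - algebraMap k (regRing k K b) (χ f)) = _
        rw [map_sub, AlgHom.commutes]
        rfl
      refine ⟨s, ?_, ?_⟩
      · change MvPolynomial.eval₂ (χ : regRing k K b →+* k) x.rep (s.loc b) = 0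
        rw [vap_value_of_sub χ x.rep hle hs, hval, sub_self, zero_mul]
      · change MvPolynomial.eval₂ (χ' : regRing k K b →+* k) x'.rep (s.loc b) ≠ 0
        rw [vap_value_of_sub χ' x'.rep hle' hs, hval]
        exact mul_ne_zero (sub_ne_zero.mpr fun h => hf h.symm) (pow_ne_zero _ hi)
  · obtain ⟨i, hi⟩ := exists_coord_ne x'
    obtain ⟨s, hs, hs'⟩ := vap_section_two hg hτ hV hab χ x.rep χ' x'.rep
      (vap_X_pow_isHomogeneous (R := regRing k K b) i (e + 1))
    refine ⟨s, ?_, ?_⟩
    · exact eval₂_Jmod χ x.rep le_rfl hs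
    · change MvPolynomial.eval₂ (χ' : regRing k K b →+* k) x'.rep (s.loc b) ≠ 0
      rw [vap_value_of_sub χ' x'.rep le_rfl hs', vap_eval₂_X_pow]
      exact pow_ne_zero _ hi

end

end Pool.Agent.FJ
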